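import Mathlib

set_option autoImplicit false

namespace Pool.Agent.Lib.MP_94b6b1_an

variable {G : Type} [Group G]

/-- The Hilbert space of square-summable complex functions on `G`. -/
abbrev L2 (G : Type) : Type := lp (fun _ : G => ℂ) 2

theorem mem_shift (g : G) (ξ : L2 G) : Memℓp (fun h : G => ξ (g⁻¹ * h)) 2 :=
  memℓp_gen ((Equiv.mulLeft g⁻¹).summable_iff.mpr ((lp.memℓp ξ).summable (by norm_num)))

/-- left translation as a linear map -/
noncomputable def shift (g : G) : L2 G →ₗ[ℂ] L2 G where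
  toFun ξ := ⟨fun h : G => ξ (g⁻¹ * h), mem_shift g ξ⟩
  map_add' _ _ := rfl
  map_smul' _ _ := rfl

theorem norm_shift (g : G) (ξ : L2 G) : ‖shift g ξ‖ = ‖ξ‖ := by
  rw [lp.norm_eq_tsum_rpow (by norm_num), lp.norm_eq_tsum_rpow (by norm_num)]
  congr 1
  exact (Equiv.mulLeft g⁻¹).tsum_eq (fun h : G => ‖ξ h‖ ^ (2 : ENNReal).toReal)

/-- The left regular representation: `(lam g ξ) h = ξ (g⁻¹ h)`. -/
noncomputable def lam (g : G) : L2 G →L[ℂ] L2 G :=
  (shift g).mkContinuous 1 (fun ξ => by rw [norm_shift, one_mul])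

/-- Operator-norm closure of the linear span of a family of operators. -/
def closedSpan {H ι : Type} [NormedAddCommGroup H] [NormedSpace ℂ H] (u : ι → H →L[ℂ] H) :
    Set (H →L[ℂ] H) :=
  closure (Submodule.span ℂ (Set.range u) : Set (H →L[ℂ] H))

/-- The series `∑ c i • u i` converges in operator norm as an unordered sum. -/
def Converges {H ι : Type} [NormedAddCommGroup H] [NormedSpace ℂ H] (c : ι → ℂ)
    (u : ι → H →L[ℂ] H) : Prop :=
  Summable (fun i => c i • u i)

open Classical in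
/-- Fourier coefficient `⟨x δ_e, δ_g⟩`. -/
noncomputable def coeff (x : L2 G →L[ℂ] L2 G) (g : G) : ℂ := x (lp.single 2 (1 : G) (1 : ℂ)) g

/-- Normalised negative definite functions with values in `[0, ∞)`. -/
def ND (d : G → ℝ) : Prop :=
  (∀ g, 0 ≤ d g) ∧ d 1 = 0 ∧ (∀ g, d g⁻¹ = d g) ∧
    ∀ (n : ℕ) (g : Fin n → G) (b : Fin n → ℂ), ∑ i, b i = 0 →
      (∑ i, ∑ j, (starRingEnd ℂ) (b i) * b j * (d ((g i)⁻¹ * g j) : ℂ)).re ≤ 0

/-- The Haagerup property. -/
def Haagerup (G : Type) [Group G] : Prop :=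
  ∃ d : G → ℝ, ND d ∧ ∀ s : ℝ, 0 ≤ s → {g : G | d g ≤ s}.Finite

/-- The heat property: the Fourier series of `M_t^d x`, whose coefficients are
`exp (-t d g) * coeff x g`, converges in operator norm as an unordered sum. -/
def Heat (G : Type) [Group G] : Prop :=
  ∃ d : G → ℝ, ND d ∧ ∀ t : ℝ, 0 < t → ∀ x ∈ closedSpan (lam (G := G)),
    Converges (fun g : G => (Real.exp (-t * d g) : ℂ) * coeff x g) lam

end Pool.Agent.Lib.MP_94b6b1_an
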