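import Mathlib
import Pool.Agent.Lib.MP_94b6b1_an.Defs

set_option autoImplicit false

namespace Pool.Agent.Lib.MP_94b6b1_an

variable {G : Type} [Group G]

/-- real form of conditional negativity -/
def CN (f : G → ℝ) : Prop :=
  ∀ (ι : Type) [Fintype ι] (g : ι → G) (b : ι → ℝ), ∑ i, b i = 0 →
    ∑ i, ∑ j, b i * b j * f ((g i)⁻¹ * g j) ≤ 0

lemma ND.cn {d : G → ℝ} (h : ND d) : CN d := by
  intro ι _ g b hb
  set e := (Fintype.equivFin ι).symm
  have := h.2.2.2 _ (fun i => g (e i)) (fun i => (b (e i) : ℂ)) (by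
    rw [← Complex.ofReal_sum, Equiv.sum_comp e b, hb, Complex.ofReal_zero])
  simp only [Complex.conj_ofReal, ← Complex.ofReal_mul, ← Complex.ofReal_sum,
    Complex.ofReal_re] at this
  rw [← Equiv.sum_comp e]
  refine le_of_eq_of_le (Finset.sum_congr rfl fun i _ => ?_) this
  rw [← Equiv.sum_comp e]

section
variable {S : Type} [Fintype S] (s : S → G)

/-- right averaging operator -/
noncomputable def Pop : Module.End ℝ (G → ℝ) where
  toFun f g := (∑ σ, f (g * s σ)) / Fintype.card S
  map_add' f f' := by ext g; simp [Finset.sum_add_distrib, add_div]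
  map_smul' c f := by ext g; simp [← Finset.mul_sum, mul_div_assoc]

/-- left averaging operator -/
noncomputable def Qop : Module.End ℝ (G → ℝ) where
  toFun f g := (∑ σ, f ((s σ)⁻¹ * g)) / Fintype.card S
  map_add' f f' := by ext g; simp [Finset.sum_add_distrib, add_div]
  map_smul' c f := by ext g; simp [← Finset.mul_sum, mul_div_assoc]

lemma Pop_apply (f : G → ℝ) (g : G) : Pop s f g = (∑ σ, f (g * s σ)) / Fintype.card S := rfl
lemma Qop_apply (f : G → ℝ) (g : G) : Qop s f g = (∑ σ, f ((s σ)⁻¹ * g)) / Fintype.card S := rfl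

lemma commPQ : Commute (Qop s) (Pop s) := by
  ext f g
  simp only [Module.End.mul_apply, Pop_apply, Qop_apply, ← Finset.sum_div, mul_assoc]
  rw [Finset.sum_comm]

lemma CN.step [Nonempty S] {f : G → ℝ} (h : CN f) : CN (Qop s (Pop s f)) := by
  intro ι _ g b hb
  have hc : (0 : ℝ) < Fintype.card S := by exact_mod_cast Fintype.card_pos
  have := h (ι × S) (fun p => g p.1 * s p.2) (fun p => b p.1 / Fintype.card S) (by
    rw [Fintype.sum_prod_type]
    simp only [Finset.sum_const, Finset.card_univ, nsmul_eq_mul]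
    rw [← Finset.mul_sum, ← Finset.sum_div, hb]; simp)
  refine le_of_eq_of_le ?_ this
  simp only [Fintype.sum_prod_type, Pop_apply, Qop_apply, mul_inv_rev, mul_assoc]
  refine Finset.sum_congr rfl fun i _ => ?_
  rw [Finset.sum_comm]
  refine Finset.sum_congr rfl fun j _ => ?_
  simp only [← Finset.mul_sum, ← Finset.sum_div]
  field_simp

lemma CN.ineq [Nonempty S] {f : G → ℝ} (h : CN f) :
    f 1 + Qop s (Pop s f) 1 ≤ Pop s f 1 + Qop s f 1 := by
  have hc : (0 : ℝ) < Fintype.card S := by exact_mod_cast Fintype.card_pos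
  have := h (Option S) (fun o => o.elim 1 s) (fun o => o.elim 1 (fun _ => -1 / Fintype.card S)) (by
    rw [Fintype.sum_option]
    simp only [Option.elim, Finset.sum_const, Finset.card_univ, nsmul_eq_mul]
    field_simp
    ring)
  simp only [Fintype.sum_option, Option.elim, inv_one, one_mul, mul_one, Finset.sum_add_distrib,
    ← Finset.mul_sum] at this
  simp only [Pop_apply, Qop_apply, mul_one, one_mul, ← Finset.sum_div]
  have e : ∀ A B C D : ℝ, A + -1 / (Fintype.card S : ℝ) * B + (-1 / (Fintype.card S : ℝ) * C +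
      -1 / (Fintype.card S : ℝ) * (-1 / (Fintype.card S : ℝ)) * D)
      = A + D / Fintype.card S / Fintype.card S - (B / Fintype.card S + C / Fintype.card S) := by
    intro A B C D
    field_simp
    ring
  rw [e] at this
  linarith

lemma Pop_two : Pop (fun p : S × S => s p.1 * s p.2) = Pop s * Pop s := by
  ext f g
  simp only [Module.End.mul_apply, Pop_apply, Fintype.sum_prod_type, ← Finset.sum_div, mul_assoc,
    Fintype.card_prod, Nat.cast_mul, div_div]

lemma Qop_two : Qop (fun p : S × S => s p.1 * s p.2) = Qop s * Qop s := by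
  ext f g
  simp only [Module.End.mul_apply, Qop_apply, Fintype.sum_prod_type, ← Finset.sum_div, mul_assoc,
    Fintype.card_prod, Nat.cast_mul, div_div, mul_inv_rev]

variable (inv : S ≃ S) (hinv : ∀ σ, s (inv σ) = (s σ)⁻¹)
include hinv

lemma Q_one (f : G → ℝ) : Qop s f 1 = Pop s f 1 := by
  rw [Qop_apply, Pop_apply, ← Equiv.sum_comp inv (fun σ => f (1 * s σ))]
  simp [hinv]

lemma QP_pow (a b : ℕ) (f : G → ℝ) :
    ((Qop s) ^ a * (Pop s) ^ b) f 1 = ((Pop s) ^ (a + b)) f 1 := by
  induction a generalizing b with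
  | zero => simp
  | succ a ih =>
    have h1 : (Qop s) ^ (a + 1) * (Pop s) ^ b = Qop s * ((Qop s) ^ a * (Pop s) ^ b) := by
      rw [pow_succ', mul_assoc]
    have h2 : Pop s * ((Qop s) ^ a * (Pop s) ^ b) = (Qop s) ^ a * (Pop s) ^ (b + 1) := by
      rw [← mul_assoc, ← ((commPQ s).pow_left a).eq, mul_assoc, ← pow_succ']
    rw [h1, Module.End.mul_apply, Q_one s inv hinv, ← Module.End.mul_apply, h2, ih,
      show a + (b + 1) = a + 1 + b by ring]

theorem walk_le [Nonempty S] {d : G → ℝ} (h : CN d) (h0 : d 1 = 0) (k : ℕ) :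
    ((Pop s) ^ (2 * k)) d 1 ≤ k * ((Pop s) ^ 2) d 1 := by
  have cn : ∀ j : ℕ, CN (((Qop s) ^ j * (Pop s) ^ j) d) := by
    intro j
    induction j with
    | zero => simpa using h
    | succ j ih =>
      have : (Qop s) ^ (j + 1) * (Pop s) ^ (j + 1)
          = Qop s * (Pop s * ((Qop s) ^ j * (Pop s) ^ j)) := by
        rw [← mul_assoc (Pop s), ← ((commPQ s).pow_left j).eq, mul_assoc, ← pow_succ',
          ← mul_assoc, ← pow_succ']
      rw [this]
      exact ih.step s
  have conc : ∀ j : ℕ, ((Pop s) ^ (2 * j)) d 1 + ((Pop s) ^ (2 * (j + 2))) d 1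
      ≤ 2 * ((Pop s) ^ (2 * (j + 1))) d 1 := by
    intro j
    have := (cn j).ineq (fun p : S × S => s p.1 * s p.2)
    rw [Pop_two, Qop_two, ← Module.End.mul_apply, ← Module.End.mul_apply,
      ← Module.End.mul_apply, ← Module.End.mul_apply] at this
    have c := (commPQ s).pow_pow
    have e1 : Pop s * Pop s * ((Qop s) ^ j * (Pop s) ^ j) = (Qop s) ^ j * (Pop s) ^ (j + 2) := by
      rw [← sq, ← mul_assoc, ← (c j 2).eq, mul_assoc, ← pow_add, add_comm]
    have e2 : Qop s * Qop s * ((Qop s) ^ j * (Pop s) ^ j) = (Qop s) ^ (j + 2) * (Pop s) ^ j := by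
      rw [← sq, ← mul_assoc, ← pow_add, add_comm]
    have e3 : Qop s * Qop s * (Pop s * Pop s) * ((Qop s) ^ j * (Pop s) ^ j)
        = (Qop s) ^ (j + 2) * (Pop s) ^ (j + 2) := by
      rw [mul_assoc, e1, ← sq, ← mul_assoc, ← pow_add, add_comm]
    rw [e3, e1, e2] at this
    simp only [QP_pow s inv hinv] at this
    rw [show 2 * j = j + j by ring, show 2 * (j + 2) = j + 2 + (j + 2) by ring,
      show 2 * (j + 1) = j + (j + 2) by ring]
    rw [show j + 2 + j = j + (j + 2) by ring] at this
    linarith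
  have diff : ∀ j : ℕ, ((Pop s) ^ (2 * (j + 1))) d 1 - ((Pop s) ^ (2 * j)) d 1
      ≤ ((Pop s) ^ 2) d 1 := by
    intro j
    induction j with
    | zero => simp [h0]
    | succ j ih => have := conc j; linarith
  induction k with
  | zero => simp [h0]
  | succ k ih => have := diff k; push_cast; linarith

end

end Pool.Agent.Lib.MP_94b6b1_an
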