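import Mathlib
import Pool.Agent.Lib.MP_94b6b1_an.Defs

set_option autoImplicit false

namespace Pool.Agent.Lib.MP_94b6b1_an

open scoped symmDiff

/-- base group -/
abbrev X : Type := Fin 4 → ℤ

/-- the lamplighter group over `X` -/
@[ext] structure Lamp : Type where
  L : Finset X
  x : X

/-- translate a finite set -/
def tr (y : X) (A : Finset X) : Finset X := A.image (fun p => y + p)

@[simp] lemma mem_tr {y p : X} {A : Finset X} : p ∈ tr y A ↔ p - y ∈ A := by
  simp only [tr, Finset.mem_image]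
  constructor
  · rintro ⟨q, hq, rfl⟩
    simpa using hq
  · intro h
    exact ⟨p - y, h, by abel⟩

instance : Mul Lamp := ⟨fun g h => ⟨g.L ∆ tr g.x h.L, g.x + h.x⟩⟩
instance : One Lamp := ⟨⟨∅, 0⟩⟩
instance : Inv Lamp := ⟨fun g => ⟨tr (-g.x) g.L, -g.x⟩⟩

@[simp] lemma mul_L (g h : Lamp) : (g * h).L = g.L ∆ tr g.x h.L := rfl
@[simp] lemma mul_x (g h : Lamp) : (g * h).x = g.x + h.x := rfl
@[simp] lemma one_L : (1 : Lamp).L = ∅ := rfl
@[simp] lemma one_x : (1 : Lamp).x = 0 := rfl
@[simp] lemma inv_L (g : Lamp) : (g⁻¹).L = tr (-g.x) g.L := rfl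
@[simp] lemma inv_x (g : Lamp) : (g⁻¹).x = -g.x := rfl

instance : Group Lamp := Group.ofLeftAxioms
  (by
    intro a b c
    ext p
    · simp only [mul_L, mul_x, Finset.mem_symmDiff, mem_tr, sub_sub]
      tauto
    · simp only [mul_x, add_assoc])
  (by
    intro a
    ext p
    · simp [Finset.mem_symmDiff]
    · simp)
  (by
    intro a
    ext p
    · simp [Finset.mem_symmDiff]
    · simp)

instance : Countable Lamp :=
  (show Function.Injective (fun g : Lamp => (g.L, g.x)) from fun a b h => by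
    simp only [Prod.mk.injEq] at h
    exact Lamp.ext h.1 h.2).countable

instance : Infinite Lamp :=
  Infinite.of_injective (fun x : X => (⟨∅, x⟩ : Lamp)) (fun a b h => by
    simpa using congrArg Lamp.x h)

/-- the linear forms defining half-spaces -/
def ell (j : Fin 4 × Bool) (p : X) : ℤ := if j.2 then p j.1 else -p j.1

lemma ell_add (j : Fin 4 × Bool) (p q : X) : ell j (p + q) = ell j p + ell j q := by
  unfold ell; split_ifs <;> simp [add_comm]

lemma ell_sub (j : Fin 4 × Bool) (p q : X) : ell j (p - q) = ell j p - ell j q := by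
  unfold ell; split_ifs
  · simp
  · simp; ring

lemma ell_zero (j : Fin 4 × Bool) : ell j 0 = 0 := by
  unfold ell; split_ifs <;> simp

/-- index set of half-spaces -/
abbrev Hs : Type := (Fin 4 × Bool) × ℤ

/-- the wall class -/
def cl (i : Hs) (g : Lamp) : Option (Finset X) :=
  if i.2 ≤ ell i.1 g.x then some (g.L.filter (fun p => ¬ i.2 ≤ ell i.1 p)) else none

lemma cl_eq_iff (i : Hs) (g h : Lamp) : cl i g = cl i h ↔
    (i.2 ≤ ell i.1 g.x ↔ i.2 ≤ ell i.1 h.x) ∧
      (i.2 ≤ ell i.1 g.x → ∀ p, ¬ i.2 ≤ ell i.1 p → (p ∈ g.L ↔ p ∈ h.L)) := by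
  unfold cl
  by_cases h1 : i.2 ≤ ell i.1 g.x <;> by_cases h2 : i.2 ≤ ell i.1 h.x <;>
    simp only [h1, h2, if_true, if_false, Option.some.injEq, Finset.ext_iff, Finset.mem_filter,
      true_and, forall_const, reduceCtorEq, iff_true, iff_false, not_true, false_and,
      IsEmpty.forall_iff, not_false_iff]
  constructor
  · intro H p hp
    have := H p
    tauto
  · intro H p
    have := H p
    tauto

lemma cl_mul (i : Hs) (γ g h : Lamp) : cl i (γ * g) = cl i (γ * h) ↔
    cl (i.1, i.2 - ell i.1 γ.x) g = cl (i.1, i.2 - ell i.1 γ.x) h := by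
  rw [cl_eq_iff, cl_eq_iff]
  simp only [mul_x, mul_L, ell_add, Finset.mem_symmDiff, mem_tr]
  have e : ∀ y : X, i.2 ≤ ell i.1 γ.x + ell i.1 y ↔ i.2 - ell i.1 γ.x ≤ ell i.1 y := by
    intro y; omega
  rw [e, e]
  refine and_congr_right fun _ => imp_congr_right fun _ => ?_
  constructor
  · intro H p hp
    have := H (γ.x + p) (by rw [ell_add, e]; exact hp)
    rw [add_sub_cancel_left] at this
    tauto
  · intro H p hp
    have := H (p - γ.x) (by rw [ell_sub]; omega)
    tauto

/-- separating walls -/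
def sep (g h : Lamp) : Set Hs := {i | cl i g ≠ cl i h}

lemma sep_mul (γ g h : Lamp) : (sep (γ * g) (γ * h)).ncard = (sep g h).ncard := by
  apply Set.ncard_congr (fun i _ => (i.1, i.2 - ell i.1 γ.x))
  · intro i hi
    exact fun h' => hi ((cl_mul i γ g h).mpr h')
  · intro i j _ _ hij
    simp only [Prod.mk.injEq] at hij
    obtain ⟨h1, h2⟩ := hij
    refine Prod.ext h1 ?_
    rw [h1] at h2
    omega
  · intro i hi
    refine ⟨(i.1, i.2 + ell i.1 γ.x), fun h' => hi ?_, by simp⟩
    have := (cl_mul _ γ g h).mp h'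
    simpa using this

lemma bdd (g : Lamp) : ∃ N : ℤ, 0 ≤ N ∧ ∀ p, (p ∈ g.L ∨ p = g.x) → ∀ j, |ell j p| ≤ N := by
  classical
  refine ⟨∑ p ∈ insert g.x g.L, ∑ j, |ell j p|, by positivity, ?_⟩
  intro p hp j
  have hp' : p ∈ insert g.x g.L := by
    rw [Finset.mem_insert]; tauto
  calc |ell j p| ≤ ∑ j, |ell j p| :=
        Finset.single_le_sum (f := fun j => |ell j p|) (fun _ _ => abs_nonneg _) (Finset.mem_univ j)
    _ ≤ _ := Finset.single_le_sum (f := fun p => ∑ j, |ell j p|) (fun _ _ => by positivity) hp'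

lemma sep_finite (g h : Lamp) : (sep g h).Finite := by
  obtain ⟨N, hN0, hN⟩ := bdd g
  obtain ⟨M, hM0, hM⟩ := bdd h
  apply Set.Finite.subset (Set.finite_univ.prod (Set.finite_Icc (-(N + M)) (N + M)))
  intro i hi
  refine ⟨trivial, ?_⟩
  by_contra hcon
  apply hi
  rw [cl_eq_iff]
  have h1 := abs_le.mp (hN g.x (Or.inr rfl) i.1)
  have h2 := abs_le.mp (hM h.x (Or.inr rfl) i.1)
  rw [Set.mem_Icc, not_and_or] at hcon
  refine ⟨by omega, fun h3 p hp => ?_⟩
  constructor
  · intro hh
    have := abs_le.mp (hN p (Or.inl hh) i.1)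
    omega
  · intro hh
    have := abs_le.mp (hM p (Or.inl hh) i.1)
    omega

/-- the proper negative definite function -/
noncomputable def dH (g : Lamp) : ℝ := (sep 1 g).ncard

lemma dH_eq (g h : Lamp) : dH (g⁻¹ * h) = (sep g h).ncard := by
  rw [dH, ← sep_mul g, mul_one, mul_inv_cancel_left]

lemma sep_symm (g h : Lamp) : sep g h = sep h g := by
  ext i; exact ne_comm

lemma psd_class {ι Z : Type} [Fintype ι] [DecidableEq Z] (c : ι → Z) (b : ι → ℂ) :
    0 ≤ (∑ i, ∑ j, (starRingEnd ℂ) (b i) * b j * (if c i = c j then 1 else 0)).re := by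
  have : ∑ i, ∑ j, (starRingEnd ℂ) (b i) * b j * (if c i = c j then 1 else 0)
      = ∑ z ∈ Finset.univ.image c, (starRingEnd ℂ) (∑ i, if c i = z then b i else 0) *
          (∑ i, if c i = z then b i else 0) := by
    simp only [map_sum, Finset.sum_mul_sum]
    rw [Finset.sum_comm (s := Finset.univ.image c)]
    refine Finset.sum_congr rfl fun i _ => ?_
    rw [Finset.sum_comm (s := Finset.univ.image c)]
    refine Finset.sum_congr rfl fun j _ => ?_
    rw [Finset.sum_eq_single (c i)]
    · by_cases h : c i = c j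
      · simp [h]
      · simp [h, Ne.symm h]
    · intro z _ hz
      simp [Ne.symm hz]
    · intro h
      exact absurd (Finset.mem_image_of_mem c (Finset.mem_univ i)) h
  rw [this, Complex.re_sum]
  refine Finset.sum_nonneg fun z _ => ?_
  rw [← Complex.normSq_eq_conj_mul_self, Complex.ofReal_re]
  exact Complex.normSq_nonneg _

lemma ND_dH : ND dH := by
  classical
  refine ⟨fun g => Nat.cast_nonneg _, ?_, ?_, ?_⟩
  · simp [dH, sep]
  · intro g
    have := dH_eq g 1
    rw [mul_one] at this
    rw [this, sep_symm, dH]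
  · intro n g b hb
    set T : Finset Hs := Finset.univ.biUnion fun i => Finset.univ.biUnion fun j =>
      (sep_finite (g i) (g j)).toFinset with hT
    have h1 : ∀ i j, ((dH ((g i)⁻¹ * g j) : ℝ) : ℂ)
        = ∑ w ∈ T, (1 - if cl w (g i) = cl w (g j) then 1 else 0) := by
      intro i j
      rw [dH_eq, Set.ncard_eq_toFinset_card _ (sep_finite _ _)]
      have : (sep_finite (g i) (g j)).toFinset = T.filter (fun w => ¬ cl w (g i) = cl w (g j)) := by
        ext w
        simp only [Set.Finite.mem_toFinset, hT, Finset.mem_filter, Finset.mem_biUnion,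
          Finset.mem_univ, true_and, sep, Set.mem_ofPred_eq]
        exact ⟨fun h => ⟨⟨i, j, h⟩, h⟩, fun h => h.2⟩
      rw [this, Finset.card_filter]
      push_cast
      refine Finset.sum_congr rfl fun w _ => ?_
      split_ifs <;> simp
    simp only [h1, Finset.mul_sum]
    have h2 : ∑ i, ∑ j, ∑ w ∈ T, (starRingEnd ℂ) (b i) * b j *
        (1 - if cl w (g i) = cl w (g j) then 1 else 0)
        = ∑ w ∈ T, -(∑ i, ∑ j, (starRingEnd ℂ) (b i) * b j *
          (if cl w (g i) = cl w (g j) then 1 else 0)) := by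
      rw [Finset.sum_congr rfl fun i _ => Finset.sum_comm, Finset.sum_comm]
      refine Finset.sum_congr rfl fun w _ => ?_
      simp only [mul_sub, mul_one, Finset.sum_sub_distrib, ← Finset.mul_sum, hb, mul_zero,
        zero_sub, Finset.sum_neg_distrib]
    rw [h2, Complex.re_sum]
    refine Finset.sum_nonpos fun w _ => ?_
    rw [Complex.neg_re, neg_nonpos]
    exact psd_class (fun i => cl w (g i)) b

lemma abs_le_dH (g : Lamp) (p : X) (hp : p ∈ g.L ∨ p = g.x) (k : Fin 4) :
    ((|p k| : ℤ) : ℝ) ≤ dH g := by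
  have key : ∀ j : Fin 4 × Bool, ((-ell j p : ℤ) : ℝ) ≤ dH g := by
    intro j
    rcases le_or_gt (-ell j p) 0 with h | h
    · exact le_trans (by exact_mod_cast h) (Nat.cast_nonneg _)
    have hsub : ((Finset.Ioc (ell j p) 0).image (fun k : ℤ => ((j, k) : Hs)) : Set Hs) ⊆ sep 1 g := by
      intro i hi
      simp only [Finset.coe_image, Finset.coe_Ioc, Set.mem_image, Set.mem_Ioc] at hi
      obtain ⟨k, hk, rfl⟩ := hi
      intro hc
      rw [cl_eq_iff] at hc
      simp only [one_x, ell_zero, one_L, Finset.notMem_empty, false_iff] at hc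
      rcases hp with hp | hp
      · exact hc.2 hk.2 p (by omega) hp
      · have := hc.1.mp hk.2
        rw [← hp] at this
        omega
    have h1 := Set.ncard_le_ncard hsub (sep_finite _ _)
    rw [Set.ncard_coe_finset, Finset.card_image_of_injective _ (fun a b h => by simpa using h),
      Int.card_Ioc] at h1
    have h2 : ((0 - ell j p).toNat : ℤ) = -ell j p := by omega
    rw [← h2, dH]
    exact_mod_cast h1
  rcases abs_cases (p k) with h | h
  · have := key (k, false)
    simp only [ell, Bool.false_eq_true, if_false, neg_neg] at this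
    rw [h.1]; exact this
  · have := key (k, true)
    simp only [ell, if_true] at this
    rw [h.1]; exact this

theorem haagerup_Lamp : Haagerup Lamp := by
  classical
  refine ⟨dH, ND_dH, fun s _ => ?_⟩
  set B : Finset X := Fintype.piFinset fun _ => Finset.Icc (-⌈s⌉) ⌈s⌉ with hB
  have hmem : ∀ g : Lamp, dH g ≤ s → ∀ p, (p ∈ g.L ∨ p = g.x) → p ∈ B := by
    intro g hg p hp
    rw [hB, Fintype.mem_piFinset]
    intro k
    have h1 := (abs_le_dH g p hp k).trans (hg.trans (Int.le_ceil s))
    have h2 : |p k| ≤ ⌈s⌉ := by exact_mod_cast h1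
    rw [Finset.mem_Icc]
    exact abs_le.mp h2
  apply Set.Finite.subset (((B.powerset ×ˢ B).image fun q => (⟨q.1, q.2⟩ : Lamp)).finite_toSet)
  intro g hg
  simp only [Finset.coe_image, Set.mem_image, Finset.mem_coe, Finset.mem_product,
    Finset.mem_powerset]
  exact ⟨(g.L, g.x), ⟨fun p hp => hmem g hg p (Or.inl hp), hmem g hg _ (Or.inr rfl)⟩, rfl⟩

end Pool.Agent.Lib.MP_94b6b1_an
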