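import Mathlib
import Pool.Agent.Lib.MP_94b6b1_an.Group
import Pool.Agent.Lib.MP_94b6b1_an.Concave

set_option autoImplicit false

namespace Pool.Agent.Lib.MP_94b6b1_an

open scoped symmDiff

/-- directions -/
abbrev V : Type := Fin 4 → Bool

def sg (b : Bool) : ℤ := if b then 1 else -1

def stp (v : V) : X := fun i => sg (v i)

def la : Lamp := ⟨{0}, 0⟩

def sw (e : Bool) : Lamp := if e then la else 1

def mv (v : V) : Lamp := ⟨∅, stp v⟩

abbrev St : Type := Bool × V × Bool

def st (σ : St) : Lamp := sw σ.1 * mv σ.2.1 * sw σ.2.2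

def stInv : St ≃ St where
  toFun σ := (σ.2.2, fun i => !σ.2.1 i, σ.1)
  invFun σ := (σ.2.2, fun i => !σ.2.1 i, σ.1)
  left_inv σ := by simp
  right_inv σ := by simp

lemma mul_la (g : Lamp) : g * la = ⟨g.L ∆ {g.x}, g.x⟩ := by
  ext p
  · simp [la, Finset.mem_symmDiff, sub_eq_zero]
  · simp [la]

lemma mul_mv (g : Lamp) (v : V) : g * mv v = ⟨g.L, g.x + stp v⟩ := by
  ext p
  · simp [mv, Finset.mem_symmDiff]
  · simp [mv]

lemma la_la : la * la = 1 := by
  rw [mul_la]; ext p <;> simp [la]

lemma sw_inv (e : Bool) : (sw e)⁻¹ = sw e := by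
  cases e
  · simp [sw]
  · simp only [sw, if_true]; exact inv_eq_of_mul_eq_one_right la_la

lemma mv_inv (v : V) : (mv v)⁻¹ = mv (fun i => !v i) := by
  apply inv_eq_of_mul_eq_one_right
  rw [mul_mv]
  ext p
  · simp [mv]
  · simp only [mv, Pi.add_apply, stp, one_x, Pi.zero_apply]
    cases v p <;> simp [sg]

lemma st_inv (σ : St) : st (stInv σ) = (st σ)⁻¹ := by
  simp only [st, mul_inv_rev, sw_inv, mv_inv, stInv, Equiv.coe_fn_mk, mul_assoc]

/-- average over lamp configurations supported in `R` -/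
noncomputable def EE (R : Finset X) (h : Finset X → ℝ) (L : Finset X) : ℝ :=
  (∑ B ∈ R.powerset, h (L ∆ B)) / 2 ^ R.card

lemma EE_insert (R : Finset X) (h : Finset X → ℝ) (L : Finset X) (y : X) :
    (EE R h L + EE R h (L ∆ {y})) / 2 = EE (insert y R) h L := by
  by_cases hy : y ∈ R
  · rw [Finset.insert_eq_of_mem hy]
    have : EE R h (L ∆ {y}) = EE R h L := by
      unfold EE
      congr 1
      have hm : ∀ B ∈ R.powerset, {y} ∆ B ∈ R.powerset := by
        intro B hB
        rw [Finset.mem_powerset] at hB ⊢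
        intro p hp
        rw [Finset.mem_symmDiff, Finset.mem_singleton] at hp
        rcases hp with hp | hp
        · rw [hp.1]; exact hy
        · exact hB hp.1
      refine Finset.sum_nbij' (fun B => {y} ∆ B) (fun B => {y} ∆ B) hm hm ?_ ?_ ?_
      · intro B _; simp
      · intro B _; simp
      · intro B _; rw [symmDiff_assoc]
    rw [this]; ring
  · unfold EE
    rw [Finset.sum_powerset_insert hy, Finset.card_insert_of_notMem hy, pow_succ]
    have : ∑ B ∈ R.powerset, h (L ∆ {y} ∆ B) = ∑ B ∈ R.powerset, h (L ∆ insert y B) := by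
      refine Finset.sum_congr rfl fun B hB => ?_
      rw [symmDiff_assoc]
      congr 2
      have hyB : y ∉ B := fun hh => hy (Finset.mem_powerset.mp hB hh)
      ext p
      simp only [Finset.mem_symmDiff, Finset.mem_singleton, Finset.mem_insert]
      constructor
      · tauto
      · rintro (rfl | hp)
        · exact Or.inl ⟨rfl, hyB⟩
        · exact Or.inr ⟨hp, fun hh => hyB (hh ▸ hp)⟩
    rw [this]
    field_simp

/-- average over words of length `n` -/
noncomputable def Av : ℕ → (List V → ℝ) → ℝ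
  | 0, F => F []
  | n + 1, F => (∑ v : V, Av n (fun l => F (v :: l))) / 16

lemma card_V : Fintype.card V = 16 := by simp [V]

lemma Av_mono (n : ℕ) : ∀ {F F' : List V → ℝ}, (∀ l, F l ≤ F' l) → Av n F ≤ Av n F' := by
  induction n with
  | zero => intro F F' h; exact h []
  | succ n ih =>
    intro F F' h
    simp only [Av]
    gcongr with v
    exact ih fun l => h _

lemma Av_lin (n : ℕ) (a b c : ℝ) : ∀ F F' : List V → ℝ,
    Av n (fun l => a * F l + b * F' l + c) = a * Av n F + b * Av n F' + c := by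
  induction n with
  | zero => intro F F'; rfl
  | succ n ih =>
    intro F F'
    simp only [Av, ih, Finset.sum_add_distrib, ← Finset.mul_sum, Finset.sum_const,
      Finset.card_univ, card_V, nsmul_eq_mul]
    push_cast
    ring

def rng : X → List V → Finset X
  | x, [] => {x}
  | x, v :: l => insert x (rng (x + stp v) l)

def endp : X → List V → X
  | x, [] => x
  | x, v :: l => endp (x + stp v) l

noncomputable def AA (f : Lamp → ℝ) (g : Lamp) : ℝ := (f g + f (g * la)) / 2

lemma P_eq (f : Lamp → ℝ) (g : Lamp) :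
    Pop st f g = (∑ v : V, (AA f (g * mv v) + AA f (g * la * mv v)) / 2) / 16 := by
  rw [Pop_apply, Fintype.sum_prod_type, Finset.sum_comm]
  simp only [Fintype.sum_prod_type, Fintype.sum_bool, st, sw, if_true, Bool.false_eq_true,
    if_false, one_mul, mul_one, AA, Fintype.card_prod, card_V, Fintype.card_bool, ← mul_assoc,
    Finset.sum_div]
  refine Finset.sum_congr rfl fun v _ => ?_
  push_cast
  ring

lemma AA_P (f : Lamp → ℝ) (g : Lamp) : AA (Pop st f) g = Pop st f g := by
  have : Pop st f (g * la) = Pop st f g := by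
    rw [P_eq, P_eq, mul_assoc g la la, la_la, mul_one]
    simp only [add_comm]
  rw [AA, this]; ring

lemma walk_formula (f : Lamp → ℝ) (n : ℕ) : ∀ (L : Finset X) (x : X),
    AA ((Pop st ^ n) f) ⟨L, x⟩
      = Av n (fun l => EE (rng x l) (fun L' => f ⟨L', endp x l⟩) L) := by
  induction n with
  | zero =>
    intro L x
    simp only [pow_zero, Module.End.one_apply, Av, rng, endp, AA, mul_la]
    have := EE_insert ∅ (fun L' => f ⟨L', x⟩) L x
    simp only [insert_empty_eq] at this
    rw [← this]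
    have hb : ∀ M : Finset X, M ∆ (∅ : Finset X) = M := fun M => symmDiff_bot M
    simp [EE, hb]
  | succ n ih =>
    intro L x
    rw [pow_succ', Module.End.mul_apply, AA_P, P_eq]
    simp only [Av, mul_la, mul_mv, ih, rng, endp]
    congr 1
    refine Finset.sum_congr rfl fun v _ => ?_
    simp only [← EE_insert]
    have := Av_lin n (1 / 2) (1 / 2) 0
      (fun l => EE (rng (x + stp v) l) (fun L' => f ⟨L', endp (x + stp v) l⟩) L)
      (fun l => EE (rng (x + stp v) l) (fun L' => f ⟨L', endp (x + stp v) l⟩) (L ∆ {x}))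
    rw [show ∀ a b : ℝ, (a + b) / 2 = 1 / 2 * a + 1 / 2 * b + 0 by intro a b; ring, ← this]
    congr 1
    ext l
    ring

/-- number of sign sequences of length `j` with a given sum -/
def rr : ℕ → ℤ → ℕ
  | 0, m => if m = 0 then 1 else 0
  | j + 1, m => rr j (m - 1) + rr j (m + 1)

lemma rr_odd (j : ℕ) : ∀ m : ℤ, (m + j) % 2 = 1 → rr j m = 0 := by
  induction j with
  | zero => intro m h; simp only [rr]; rw [if_neg (by omega)]
  | succ j ih => intro m h; simp only [rr]; rw [ih _ (by omega), ih _ (by omega)]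

lemma rr_neg (j : ℕ) : ∀ m : ℤ, m + j < 0 → rr j m = 0 := by
  induction j with
  | zero => intro m h; simp only [rr]; rw [if_neg (by omega)]
  | succ j ih => intro m h; simp only [rr]; rw [ih _ (by omega), ih _ (by omega)]

lemma rr_choose (j : ℕ) : ∀ a : ℕ, rr j (2 * a - j) = j.choose a := by
  induction j with
  | zero =>
    intro a
    cases a with
    | zero => simp [rr]
    | succ a => simp only [rr]; rw [if_neg (by omega)]; simp
  | succ j ih =>
    intro a
    cases a with
    | zero =>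
      simp only [rr]
      rw [rr_neg _ _ (by omega)]
      have := ih 0
      rw [show (2 * ((0 : ℕ) : ℤ) - ((j + 1 : ℕ) : ℤ) + 1) = 2 * ((0 : ℕ) : ℤ) - j by push_cast; ring,
        this]
      simp
    | succ a =>
      simp only [rr]
      rw [show (2 * ((a + 1 : ℕ) : ℤ) - ((j + 1 : ℕ) : ℤ) - 1) = 2 * (a : ℤ) - j by push_cast; ring,
        show (2 * ((a + 1 : ℕ) : ℤ) - ((j + 1 : ℕ) : ℤ) + 1) = 2 * ((a + 1 : ℕ) : ℤ) - j by
          push_cast; ring, ih, ih, Nat.choose_succ_succ]

lemma central_bound (m : ℕ) : m.centralBinom ^ 2 * (2 * m + 1) ≤ 16 ^ m := by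
  induction m with
  | zero => simp
  | succ m ih =>
    have h := Nat.succ_mul_centralBinom_succ m
    have h2 : (m + 1) ^ 2 * ((m + 1).centralBinom ^ 2 * (2 * (m + 1) + 1))
        ≤ (m + 1) ^ 2 * 16 ^ (m + 1) := by
      calc (m + 1) ^ 2 * ((m + 1).centralBinom ^ 2 * (2 * (m + 1) + 1))
          = ((m + 1) * (m + 1).centralBinom) ^ 2 * (2 * m + 3) := by ring
        _ = (m.centralBinom ^ 2 * (2 * m + 1)) * (4 * ((2 * m + 1) * (2 * m + 3))) := by
            rw [h]; ring
        _ ≤ 16 ^ m * (16 * (m + 1) ^ 2) := Nat.mul_le_mul ih (by nlinarith)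
        _ = _ := by ring
    exact Nat.le_of_mul_le_mul_left h2 (by positivity)

lemma rr_zero_bound (j : ℕ) : rr j 0 ^ 2 * (j + 1) ≤ 4 ^ j := by
  rcases Nat.even_or_odd' j with ⟨m, rfl | rfl⟩
  · have := rr_choose (2 * m) m
    rw [show (2 * (m : ℤ) - ((2 * m : ℕ) : ℤ)) = 0 by push_cast; ring] at this
    rw [this, pow_mul]
    exact central_bound m
  · rw [rr_odd _ _ (by omega)]; simp

/-- distribution of the walk -/
noncomputable def pp (j : ℕ) (y : X) : ℝ := ∏ i, (rr j (y i) : ℝ) / 2 ^ j

lemma pp_zero (y : X) : pp 0 y = if y = 0 then 1 else 0 := by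
  simp only [pp, rr, pow_zero, div_one]
  split_ifs with h
  · simp [h]
  · obtain ⟨i, hi⟩ := Function.ne_iff.mp h
    exact Finset.prod_eq_zero (Finset.mem_univ i) (by simp at hi; simp [hi])

lemma pp_succ (j : ℕ) (y : X) : pp (j + 1) y = (∑ v : V, pp j (y - stp v)) / 16 := by
  have h1 : ∑ v : V, pp j (y - stp v) = ∏ i, ∑ b : Bool, (rr j (y i - sg b) : ℝ) / 2 ^ j := by
    rw [Fintype.prod_sum]
    rfl
  rw [h1, pp, eq_div_iff (by norm_num), show (16 : ℝ) = ∏ _i : Fin 4, (2 : ℝ) by simp; norm_num,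
    ← Finset.prod_mul_distrib]
  refine Finset.prod_congr rfl fun i _ => ?_
  simp only [rr, Fintype.sum_bool, sg, if_true, Bool.false_eq_true, if_false, sub_neg_eq_add]
  push_cast
  field_simp
  ring

lemma pp_bound (j : ℕ) : pp j 0 ≤ 1 / ((j : ℝ) + 1) ^ 2 := by
  have h : ((rr j 0 : ℝ)) ^ 2 * (j + 1) ≤ 4 ^ j := by exact_mod_cast rr_zero_bound j
  have h4 : (4 : ℝ) ^ j = (2 ^ j) ^ 2 := by rw [← pow_mul, mul_comm, pow_mul]; norm_num
  have h1 : ((rr j 0 : ℝ) / 2 ^ j) ^ 2 ≤ 1 / ((j : ℝ) + 1) := by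
    rw [div_pow, div_le_div_iff₀ (by positivity) (by positivity), one_mul, ← h4]
    exact h
  have h2 : pp j 0 = (((rr j 0 : ℝ) / 2 ^ j) ^ 2) ^ 2 := by
    simp only [pp, Pi.zero_apply, Finset.prod_const, Finset.card_univ, Fintype.card_fin]
    ring
  rw [h2, show 1 / ((j : ℝ) + 1) ^ 2 = (1 / ((j : ℝ) + 1)) ^ 2 by rw [div_pow, one_pow]]
  gcongr

lemma pp_sum (n : ℕ) : ∑ j ∈ Finset.range n, pp (j + 1) 0 ≤ 2 / 3 - 1 / ((n : ℝ) + 3 / 2) := by
  induction n with
  | zero => norm_num
  | succ n ih =>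
    rw [Finset.sum_range_succ]
    have h1 := pp_bound (n + 1)
    have h2 : 1 / (((n + 1 : ℕ) : ℝ) + 1) ^ 2 ≤ 1 / ((n : ℝ) + 3 / 2) - 1 / (((n + 1 : ℕ) : ℝ) + 3 / 2) := by
      push_cast
      rw [div_sub_div _ _ (by positivity) (by positivity), div_le_div_iff₀ (by positivity) (by positivity)]
      nlinarith
    linarith

/-- number of visits to `z` -/
noncomputable def cnt (z : X) : X → List V → ℝ
  | x, [] => if z - x = 0 then 1 else 0
  | x, v :: l => (if z - x = 0 then 1 else 0) + cnt z (x + stp v) l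

lemma cnt_nonneg (z : X) (l : List V) : ∀ x, 0 ≤ cnt z x l := by
  induction l with
  | nil => intro x; simp only [cnt]; positivity
  | cons v l ih => intro x; simp only [cnt]; have := ih (x + stp v); positivity

lemma cnt_ge (z : X) (l : List V) : ∀ x, z ∈ rng x l → 1 ≤ cnt z x l := by
  induction l with
  | nil => intro x h; simp only [rng, Finset.mem_singleton] at h; simp [cnt, h]
  | cons v l ih =>
    intro x h
    simp only [rng, Finset.mem_insert] at h
    simp only [cnt]
    rcases h with h | h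
    · have := cnt_nonneg z l (x + stp v)
      rw [if_pos (by simp [h])]
      linarith
    · have := ih _ h
      split_ifs <;> linarith

lemma Av_cnt (z : X) (n : ℕ) : ∀ x, Av n (cnt z x) = ∑ j ∈ Finset.range (n + 1), pp j (z - x) := by
  induction n with
  | zero => intro x; simp [Av, cnt, pp_zero]
  | succ n ih =>
    intro x
    rw [Finset.sum_range_succ', pp_zero]
    simp only [Av, cnt, pp_succ]
    have : ∀ v : V, Av n (fun l => (if z - x = 0 then 1 else 0) + cnt z (x + stp v) l)
        = (if z - x = 0 then 1 else 0) + ∑ j ∈ Finset.range (n + 1), pp j (z - x - stp v) := by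
      intro v
      have h := Av_lin n 1 0 (if z - x = 0 then 1 else 0) (cnt z (x + stp v)) (cnt z (x + stp v))
      simp only [one_mul, zero_mul, add_zero] at h
      rw [sub_sub, ← ih, add_comm _ (Av n _), ← h]
      simp only [add_comm]
    simp only [this, Finset.sum_add_distrib, Finset.sum_const, Finset.card_univ, card_V,
      nsmul_eq_mul, ← Finset.sum_div]
    rw [Finset.sum_comm]
    push_cast
    ring

lemma Av_rng (n : ℕ) : ∀ x, ((n : ℝ) + 1) / 3 ≤ Av n (fun l => ((rng x l).card : ℝ)) := by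
  induction n with
  | zero => intro x; simp only [Av, rng, Finset.card_singleton]; norm_num
  | succ n ih =>
    intro x
    simp only [Av, rng]
    have h1 : ∀ v : V, ((n : ℝ) + 1) / 3 + 1 - ∑ j ∈ Finset.range (n + 1), pp j (0 - stp v)
        ≤ Av n (fun l => ((insert x (rng (x + stp v) l)).card : ℝ)) := by
      intro v
      have h := Av_lin n 1 (-1) 1 (fun l => ((rng (x + stp v) l).card : ℝ)) (cnt x (x + stp v))
      have h2 := Av_mono n (F := fun l => 1 * ((rng (x + stp v) l).card : ℝ) +
          (-1) * cnt x (x + stp v) l + 1)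
        (F' := fun l => ((insert x (rng (x + stp v) l)).card : ℝ)) (by
          intro l
          by_cases hx : x ∈ rng (x + stp v) l
          · rw [Finset.insert_eq_of_mem hx]
            have := cnt_ge x l _ hx
            linarith
          · rw [Finset.card_insert_of_notMem hx]
            have := cnt_nonneg x l (x + stp v)
            push_cast
            linarith)
      rw [h, Av_cnt, show x - (x + stp v) = 0 - stp v by abel] at h2
      have := ih (x + stp v)
      linarith
    have h2 := Finset.sum_le_sum fun v (_ : v ∈ Finset.univ) => h1 v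
    rw [Finset.sum_sub_distrib, Finset.sum_comm, Finset.sum_const, Finset.card_univ, card_V,
      nsmul_eq_mul] at h2
    have h3 := pp_sum (n + 1)
    simp only [pp_succ, ← Finset.sum_div] at h3
    have h4 : (0 : ℝ) ≤ 1 / (((n + 1 : ℕ) : ℝ) + 3 / 2) := by positivity
    push_cast at h2 h3 h4 ⊢
    linarith

/-- No negative definite function is much larger than the number of lamps on all lamp cosets. -/
theorem no_large {d : Lamp → ℝ} (h : CN d) (h0 : d 1 = 0)
    (H : ∀ K : ℝ, 0 < K → ∃ c : ℝ, ∀ (R : Finset X) (z : X),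
      K * R.card - c ≤ EE R (fun L' => d ⟨L', z⟩) ∅) : False := by
  set φ := ((Pop st) ^ 2) d 1
  obtain ⟨c, hc⟩ := H (3 * (|φ| + 1)) (by positivity)
  obtain ⟨k, hk⟩ := exists_nat_gt c
  have h1 := walk_le st stInv st_inv h h0 (k + 1)
  have h2 := walk_formula d (2 * (k + 1)) ∅ 0
  rw [show 2 * (k + 1) = (2 * k + 1) + 1 by ring, pow_succ', Module.End.mul_apply, AA_P,
    ← Module.End.mul_apply, ← pow_succ', show (2 * k + 1) + 1 = 2 * (k + 1) by ring] at h2
  have h3 := Av_mono (2 * (k + 1))
    (F := fun l => (3 * (|φ| + 1)) * ((rng 0 l).card : ℝ) + 0 * ((rng 0 l).card : ℝ) + (-c))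
    (F' := fun l => EE (rng 0 l) (fun L' => d ⟨L', endp 0 l⟩) ∅) (by
      intro l
      have := hc (rng 0 l) (endp 0 l)
      linarith)
  rw [Av_lin, ← h2] at h3
  have h4 := Av_rng (2 * (k + 1)) 0
  have h5 : (⟨∅, 0⟩ : Lamp) = 1 := rfl
  rw [h5] at h3
  have h6 := le_abs_self φ
  have h7 := abs_nonneg φ
  have hk0 : (0 : ℝ) ≤ k := Nat.cast_nonneg k
  push_cast at h1 h4
  nlinarith

end Pool.Agent.Lib.MP_94b6b1_an
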