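import Mathlib
import Pool.Agent.Lib.MP_94b6b1_an.Walk

set_option autoImplicit false

namespace Pool.Agent.Lib.MP_94b6b1_an

open scoped symmDiff

section general
variable {G : Type} [Group G]

/-- The reduced group C*-algebra as a submodule. -/
noncomputable def Cr (G : Type) [Group G] : Submodule ℂ (L2 G →L[ℂ] L2 G) :=
  (Submodule.span ℂ (Set.range (lam (G := G)))).topologicalClosure

lemma lam_apply (g : G) (ξ : L2 G) (h : G) : lam g ξ h = ξ (g⁻¹ * h) := rfl

lemma norm_lam (g : G) (ξ : L2 G) : ‖lam g ξ‖ = ‖ξ‖ := norm_shift g ξ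

lemma lam_lam (g h : G) (ξ : L2 G) : lam g (lam h ξ) = lam (g * h) ξ := by
  ext k
  simp only [lam_apply, mul_inv_rev, mul_assoc]

lemma lam_one (ξ : L2 G) : lam (1 : G) ξ = ξ := by
  ext k
  simp only [lam_apply, inv_one, one_mul]

/-- `lam g` as an isometry -/
noncomputable def lamI (g : G) : L2 G →ₗᵢ[ℂ] L2 G := ⟨shift g, norm_shift g⟩

lemma inner_lam (g : G) (ξ η : L2 G) : inner ℂ (lam g ξ) (lam g η) = inner ℂ ξ η :=
  (lamI g).inner_map_map ξ η

lemma norm_add_I {a : G} (ha : a * a = 1) (η : L2 G) :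
    ‖η + Complex.I • lam a η‖ ^ 2 = 2 * ‖η‖ ^ 2 := by
  have h1 : inner ℂ η (lam a η) = inner ℂ (lam a η) η := by
    conv_lhs => rw [← inner_lam a, lam_lam, ha, lam_one]
  have h2 : (inner ℂ η (lam a η)).im = 0 := by
    have := inner_conj_symm (𝕜 := ℂ) η (lam a η)
    rw [← h1] at this
    exact Complex.conj_eq_iff_im.mp this
  rw [@norm_add_sq ℂ, inner_smul_right, norm_smul, norm_lam]
  simp [h2]
  ring

lemma lam_mem (g : G) : lam g ∈ Cr G :=
  Submodule.le_topologicalClosure _ (Submodule.subset_span ⟨g, rfl⟩)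

open Classical in
lemma coeff_lam (g h : G) : coeff (lam g) h = if g = h then 1 else 0 := by
  rw [coeff, lam_apply, lp.single_apply, Pi.single_apply]
  simp only [inv_mul_eq_one]

open Classical in
/-- the coefficient functional -/
noncomputable def coeffL (g : G) : (L2 G →L[ℂ] L2 G) →L[ℂ] ℂ :=
  LinearMap.mkContinuous
    { toFun := fun x => coeff x g
      map_add' := fun _ _ => rfl
      map_smul' := fun _ _ => rfl } 1 (fun x => by
      have h1 := lp.norm_apply_le_norm (p := 2) (by norm_num)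
        (x (lp.single 2 (1 : G) (1 : ℂ))) g
      have h2 := x.le_opNorm (lp.single 2 (1 : G) (1 : ℂ))
      rw [lp.norm_single (by norm_num), norm_one, mul_one] at h2
      rw [one_mul]
      exact h1.trans h2)

lemma coeffL_apply (g : G) (x : L2 G →L[ℂ] L2 G) : coeffL g x = coeff x g := rfl

lemma bdd_of_summable {E ι : Type} [NormedAddCommGroup E] {f : ι → E} (h : Summable f) :
    ∃ C : ℝ, ∀ F : Finset ι, ‖∑ i ∈ F, f i‖ ≤ C := by
  classical
  obtain ⟨s, hs⟩ := h.vanishing (Metric.ball_mem_nhds 0 one_pos)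
  refine ⟨1 + ∑ i ∈ s, ‖f i‖, fun F => ?_⟩
  rw [← Finset.sum_sdiff (Finset.inter_subset_left (s₁ := F) (s₂ := s))]
  refine (norm_add_le _ _).trans (add_le_add ?_ ?_)
  · have := hs (F \ (F ∩ s)) (by
      rw [Finset.disjoint_left]
      intro a ha hs'
      simp only [Finset.mem_sdiff, Finset.mem_inter] at ha
      tauto)
    rw [mem_ball_zero_iff] at this
    exact this.le
  · exact (norm_sum_le _ _).trans (Finset.sum_le_sum_of_subset_of_nonneg
      Finset.inter_subset_right fun _ _ _ => norm_nonneg _)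

lemma unif_abstract {E F ι : Type} [NormedAddCommGroup E] [NormedSpace ℂ E] [CompleteSpace E]
    [NormedAddCommGroup F] [NormedSpace ℂ F] (K : Submodule ℂ E) (hK : IsClosed (K : Set E))
    (φ : ι → E →L[ℂ] ℂ) (u : ι → F) (h : ∀ x ∈ K, Summable (fun i => φ i x • u i)) :
    ∃ C : ℝ, 0 < C ∧ ∀ x ∈ K, ∀ s : Finset ι, ‖∑ i ∈ s, φ i x • u i‖ ≤ C * ‖x‖ := by
  have : CompleteSpace K := hK.completeSpace_coe
  let T : Finset ι → (K →L[ℂ] F) := fun s => ∑ i ∈ s, ((φ i).comp K.subtypeL).smulRight (u i)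
  have hT : ∀ s (x : K), T s x = ∑ i ∈ s, φ i x.1 • u i := by
    intro s x
    simp only [T, sum_apply]
    rfl
  obtain ⟨C, hC⟩ := banach_steinhaus (g := T) (fun x => by
    obtain ⟨C, hC⟩ := bdd_of_summable (h x.1 x.2)
    exact ⟨C, fun F => by rw [hT]; exact hC F⟩)
  have hC0 : 0 ≤ C := (norm_nonneg _).trans (hC ∅)
  refine ⟨C + 1, by linarith, fun x hx s => ?_⟩
  have := (T s).le_of_opNorm_le (hC s) ⟨x, hx⟩
  rw [hT] at this
  have h2 : ‖(⟨x, hx⟩ : K)‖ = ‖x‖ := rfl
  rw [h2] at this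
  nlinarith [norm_nonneg x]

lemma unif_bound (w : G → ℂ)
    (h : ∀ x ∈ Cr G, Summable (fun g : G => (w g * coeff x g) • lam g)) :
    ∃ C : ℝ, 0 < C ∧ ∀ x ∈ Cr G, ∀ F : Finset G,
      ‖∑ g ∈ F, (w g * coeff x g) • lam g‖ ≤ C * ‖x‖ :=
  unif_abstract (Cr G) (Submodule.isClosed_topologicalClosure _) (fun g => w g • coeffL g) lam h

end general

lemma lamp_mul (A B : Finset X) (z : X) : (⟨A, 0⟩ : Lamp) * ⟨B, z⟩ = ⟨A ∆ B, z⟩ := by
  ext p
  · simp [Finset.mem_symmDiff]
  · simp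

/-- the test operator -/
noncomputable def YY (R : Finset X) (z : X) : L2 Lamp →L[ℂ] L2 Lamp :=
  ∑ A ∈ R.powerset, Complex.I ^ A.card • lam ⟨A, z⟩

lemma YY_mem (R : Finset X) (z : X) : YY R z ∈ Cr Lamp :=
  Submodule.sum_mem _ fun _ _ => Submodule.smul_mem _ _ (lam_mem _)

lemma YY_norm (R : Finset X) (z : X) (ξ : L2 Lamp) : ‖YY R z ξ‖ ^ 2 = 2 ^ R.card * ‖ξ‖ ^ 2 := by
  induction R using Finset.induction_on with
  | empty => simp [YY, norm_lam]
  | insert y R hy ih =>
    have h1 : YY (insert y R) z ξ = YY R z ξ + Complex.I • lam ⟨{y}, 0⟩ (YY R z ξ) := by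
      unfold YY
      rw [Finset.sum_powerset_insert hy]
      simp only [add_apply, sum_apply, map_sum,
        Finset.smul_sum, smul_apply, map_smul, lam_lam, lamp_mul]
      congr 1
      refine Finset.sum_congr rfl fun B hB => ?_
      have hyB : y ∉ B := fun hh => hy (Finset.mem_powerset.mp hB hh)
      have : ({y} : Finset X) ∆ B = insert y B := by
        ext p
        simp only [Finset.mem_symmDiff, Finset.mem_singleton, Finset.mem_insert]
        constructor
        · tauto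
        · rintro (rfl | hp)
          · exact Or.inl ⟨rfl, hyB⟩
          · exact Or.inr ⟨hp, fun hh => hyB (hh ▸ hp)⟩
      rw [this, Finset.card_insert_of_notMem hyB, pow_succ', mul_smul]
    rw [h1, norm_add_I, ih, Finset.card_insert_of_notMem hy, pow_succ]
    · ring
    · rw [lamp_mul, symmDiff_self]; rfl

lemma YY_opNorm (R : Finset X) (z : X) : ‖YY R z‖ ≤ √2 ^ R.card := by
  refine ContinuousLinearMap.opNorm_le_bound _ (by positivity) fun ξ => ?_
  apply le_of_eq
  rw [← sq_eq_sq₀ (by positivity) (by positivity), YY_norm, mul_pow, ← pow_mul, mul_comm R.card,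
    pow_mul, Real.sq_sqrt (by norm_num)]

lemma YY_coeff (R : Finset X) (z : X) {B : Finset X} (hB : B ∈ R.powerset) :
    coeff (YY R z) ⟨B, z⟩ = Complex.I ^ B.card := by
  rw [← coeffL_apply, YY, map_sum, Finset.sum_eq_single B]
  · rw [map_smul, coeffL_apply, coeff_lam, if_pos rfl, smul_eq_mul, mul_one]
  · intro A _ hA
    rw [map_smul, coeffL_apply, coeff_lam, if_neg, smul_zero]
    intro h
    exact hA (congrArg Lamp.L h)
  · intro h; exact absurd hB h

open Classical in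
/-- indicator of the finite subgroup of configurations supported in `R` -/
noncomputable def ind (R : Finset X) : L2 Lamp :=
  ∑ B ∈ R.powerset, lp.single 2 (⟨B, 0⟩ : Lamp) (1 : ℂ)

open Classical in
lemma ind_apply (R : Finset X) (g : Lamp) : ind R g = if g.L ⊆ R ∧ g.x = 0 then 1 else 0 := by
  rw [ind, lp.coeFn_sum, Finset.sum_apply]
  simp only [lp.single_apply, Pi.single_apply]
  split_ifs with h
  · rw [Finset.sum_eq_single g.L]
    · have : g = ⟨g.L, 0⟩ := Lamp.ext rfl h.2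
      exact if_pos this
    · intro A _ hA
      rw [if_neg]
      intro hh
      exact hA (by rw [hh])
    · intro hh; exact absurd (Finset.mem_powerset.mpr h.1) hh
  · refine Finset.sum_eq_zero fun A hA => if_neg ?_
    intro hh
    exact h ⟨by rw [hh]; exact Finset.mem_powerset.mp hA, by rw [hh]⟩

lemma lam_ind (R : Finset X) {A : Finset X} (hA : A ⊆ R) : lam ⟨A, 0⟩ (ind R) = ind R := by
  have hinv : (⟨A, 0⟩ : Lamp)⁻¹ = ⟨A, 0⟩ := by
    apply inv_eq_of_mul_eq_one_right
    rw [lamp_mul, symmDiff_self]; rfl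
  ext g
  obtain ⟨B, z⟩ := g
  rw [lam_apply, hinv, lamp_mul, ind_apply, ind_apply]
  have : A ∆ B ⊆ R ↔ B ⊆ R := by
    constructor
    · intro h p hp
      by_cases hpA : p ∈ A
      · exact hA hpA
      · exact h (Finset.mem_symmDiff.mpr (Or.inr ⟨hp, hpA⟩))
    · intro h p hp
      rcases Finset.mem_symmDiff.mp hp with hp | hp
      · exact hA hp.1
      · exact h hp.1
  simp only [this]

lemma ind_ne (R : Finset X) : ind R ≠ 0 := by
  intro h
  have := ind_apply R 1
  rw [h] at this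
  simp at this

lemma sum_le_norm (R : Finset X) (z : X) (𝒜 : Finset (Finset X)) (h : 𝒜 ⊆ R.powerset)
    (w : Finset X → ℝ) (c : ℂ) (hc : ‖c‖ = 1) :
    ∑ A ∈ 𝒜, w A ≤ ‖∑ A ∈ 𝒜, ((w A : ℂ) * c) • lam (⟨A, z⟩ : Lamp)‖ := by
  set U := ∑ A ∈ 𝒜, ((w A : ℂ) * c) • lam (⟨A, z⟩ : Lamp) with hU
  have h1 : U (lam (⟨∅, -z⟩ : Lamp) (ind R)) = (((∑ A ∈ 𝒜, w A : ℝ) : ℂ) * c) • ind R := by
    rw [hU, sum_apply, Complex.ofReal_sum, Finset.sum_mul, Finset.sum_smul]
    refine Finset.sum_congr rfl fun A hA => ?_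
    have : (⟨A, z⟩ : Lamp) * ⟨∅, -z⟩ = ⟨A, 0⟩ := by
      ext p
      · simp [Finset.mem_symmDiff]
      · simp
    rw [smul_apply, lam_lam, this,
      lam_ind R (Finset.mem_powerset.mp (h hA))]
  have h2 := U.le_opNorm (lam (⟨∅, -z⟩ : Lamp) (ind R))
  rw [h1, norm_lam, norm_smul, norm_mul, hc, mul_one, Complex.norm_real] at h2
  have h3 : 0 < ‖ind R‖ := norm_pos_iff.mpr (ind_ne R)
  exact (le_abs_self _).trans (le_of_mul_le_mul_right h2 h3)

lemma coset_bound (w : Lamp → ℝ) {C : ℝ} (hC0 : 0 < C)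
    (hC : ∀ x ∈ Cr Lamp, ∀ F : Finset Lamp,
      ‖∑ g ∈ F, ((w g : ℂ) * coeff x g) • lam g‖ ≤ C * ‖x‖) (R : Finset X) (z : X) :
    ∑ A ∈ R.powerset, w ⟨A, z⟩ ≤ 4 * C * √2 ^ R.card := by
  classical
  have h1 : ∀ r : ℕ, ∑ A ∈ R.powerset.filter (fun A => A.card % 4 = r), w ⟨A, z⟩
      ≤ C * √2 ^ R.card := by
    intro r
    have h2 := sum_le_norm R z (R.powerset.filter (fun A => A.card % 4 = r))
      (Finset.filter_subset _ _) (fun A => w ⟨A, z⟩) (Complex.I ^ r) (by simp)
    have h3 := hC _ (YY_mem R z)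
      ((R.powerset.filter (fun A => A.card % 4 = r)).image (fun A => (⟨A, z⟩ : Lamp)))
    rw [Finset.sum_image (fun A _ B _ h => congrArg Lamp.L h)] at h3
    have h4 : ∑ A ∈ R.powerset.filter (fun A => A.card % 4 = r),
        ((w ⟨A, z⟩ : ℂ) * coeff (YY R z) ⟨A, z⟩) • lam (⟨A, z⟩ : Lamp)
        = ∑ A ∈ R.powerset.filter (fun A => A.card % 4 = r),
        ((w ⟨A, z⟩ : ℂ) * Complex.I ^ r) • lam (⟨A, z⟩ : Lamp) := by
      refine Finset.sum_congr rfl fun A hA => ?_
      rw [Finset.mem_filter] at hA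
      rw [YY_coeff R z hA.1, ← hA.2, pow_eq_pow_mod A.card Complex.I_pow_four]
    rw [h4] at h3
    exact h2.trans (h3.trans (mul_le_mul_of_nonneg_left (YY_opNorm R z) hC0.le))
  rw [← Finset.sum_fiberwise_of_maps_to (s := R.powerset) (t := Finset.range 4)
    (g := fun A => A.card % 4) (fun A _ => Finset.mem_range.mpr (Nat.mod_lt _ (by norm_num)))]
  have := Finset.sum_le_card_nsmul (Finset.range 4) _ _ (fun r _ => h1 r)
  rw [Finset.card_range, nsmul_eq_mul] at this
  push_cast at this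
  linarith

theorem not_heat : ¬ Heat Lamp := by
  rintro ⟨d, hd, H⟩
  refine no_large hd.cn hd.2.1 fun K hK => ?_
  have hl : 0 < Real.log 2 := Real.log_pos (by norm_num)
  set t := Real.log 2 / (2 * K) with ht
  have ht0 : 0 < t := by positivity
  obtain ⟨C, hC0, hC⟩ := unif_bound _ (H t ht0)
  refine ⟨Real.log (4 * C) / t, fun R z => ?_⟩
  have h1 := coset_bound (fun g => Real.exp (-t * d g)) hC0 hC R z
  set D := EE R (fun L' => d ⟨L', z⟩) ∅ with hD
  have hD' : ∑ A ∈ R.powerset, d ⟨A, z⟩ = 2 ^ R.card * D := by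
    have hb : ∀ M : Finset X, (∅ : Finset X) ∆ M = M := fun M => bot_symmDiff M
    rw [hD, EE]
    simp only [hb]
    field_simp
  have h2 : ∑ A ∈ R.powerset, Real.exp (-t * D) * (1 + t * D - t * d ⟨A, z⟩)
      ≤ ∑ A ∈ R.powerset, Real.exp (-t * d ⟨A, z⟩) := by
    refine Finset.sum_le_sum fun A _ => ?_
    have := Real.add_one_le_exp (t * D - t * d ⟨A, z⟩)
    rw [show -t * d ⟨A, z⟩ = -t * D + (t * D - t * d ⟨A, z⟩) by ring, Real.exp_add]
    apply mul_le_mul_of_nonneg_left _ (Real.exp_pos _).le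
    linarith
  rw [← Finset.mul_sum, Finset.sum_sub_distrib, ← Finset.mul_sum, hD', Finset.sum_const,
    Finset.card_powerset, nsmul_eq_mul] at h2
  have h3 : Real.exp (-t * D) * 2 ^ R.card ≤ 4 * C * √2 ^ R.card := by
    refine le_trans (le_of_eq ?_) (h2.trans h1)
    push_cast
    ring
  have h4 := Real.log_le_log (by positivity) h3
  rw [Real.log_mul (by positivity) (by positivity), Real.log_mul (by positivity) (by positivity),
    Real.log_exp, Real.log_pow, Real.log_pow, Real.log_sqrt (by norm_num)] at h4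
  have h5 : K * t = Real.log 2 / 2 := by rw [ht]; field_simp
  rw [sub_le_iff_le_add, ← sub_le_iff_le_add', le_div_iff₀ ht0]
  have h6 : (K * R.card - D) * t = R.card * (K * t) - t * D := by ring
  rw [h6, h5]
  linarith

end Pool.Agent.Lib.MP_94b6b1_an
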