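import Mathlib

set_option autoImplicit false

namespace Pool.Agent.Lib.MP_94b6b1_an

/-- The interval `[0, 1)`, read as the circle. -/
abbrev I01 : Type := Set.Ico (0 : ℝ) 1

/-- Dyadic rationals. -/
def IsDyadic (r : ℝ) : Prop := ∃ (a : ℤ) (b : ℕ), r = a / 2 ^ b

/-- For some `n`, on each interval `[j / 2 ^ n, (j + 1) / 2 ^ n)` the bijection `σ` is affine, with
slope a power of two and dyadic translation part. -/
def IsPL (σ : Equiv.Perm I01) : Prop :=
  ∃ n : ℕ, ∀ j : ℕ, ∃ (k : ℤ) (d : ℝ), IsDyadic d ∧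
    ∀ x : I01, (j : ℝ) / 2 ^ n ≤ x → (x : ℝ) < (j + 1) / 2 ^ n → (σ x : ℝ) = 2 ^ k * x + d

/-- Thompson's group `V`. -/
def ThompsonV : Subgroup (Equiv.Perm I01) := Subgroup.closure {σ | IsPL σ}

/-- Thompson's group `T`: the maps preserving the cyclic order. -/
def ThompsonT : Subgroup (Equiv.Perm I01) :=
  Subgroup.closure {σ | IsPL σ ∧ ∀ x y z, x < y → y < z →
    (σ x < σ y ∧ σ y < σ z) ∨ (σ y < σ z ∧ σ z < σ x) ∨ (σ z < σ x ∧ σ x < σ y)}

/-- Thompson's group `F`: the increasing maps. -/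
def ThompsonF : Subgroup (Equiv.Perm I01) := Subgroup.closure {σ | IsPL σ ∧ StrictMono σ}

end Pool.Agent.Lib.MP_94b6b1_an
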