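import Pool.Agent.Lib.MP_94b6b1_an.ZTree
import Pool.Agent.Lib.MP_94b6b1_an.ThomDefs

set_option autoImplicit false

namespace Pool.Agent.Lib.MP_94b6b1_an.ZL

open Equiv

noncomputable def half (b : Bool) : I01 ↪ I01 where
  toFun x := ⟨(x + b.toNat) / 2, by
    obtain ⟨x, h1, h2⟩ := x
    cases b <;> constructor <;> simp <;> linarith⟩
  inj' x y h := Subtype.ext (by
    have := congrArg Subtype.val h
    simp only at this
    linarith)

theorem half_val (b : Bool) (x : I01) : (half b x : ℝ) = (x + b.toNat) / 2 := rfl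

noncomputable def rot : Perm I01 where
  toFun x := ⟨if x.1 < 1 / 4 then 2 * x.1 else if x.1 < 1 / 2 then x.1 + 1 / 4 else (x.1 + 1) / 2, by
    obtain ⟨x, h1, h2⟩ := x
    simp only [Set.mem_Ico]
    split_ifs <;> constructor <;> linarith⟩
  invFun x := ⟨if x.1 < 1 / 2 then x.1 / 2 else if x.1 < 3 / 4 then x.1 - 1 / 4 else 2 * x.1 - 1, by
    obtain ⟨x, h1, h2⟩ := x
    simp only [Set.mem_Ico]
    split_ifs <;> constructor <;> linarith⟩
  left_inv x := Subtype.ext (by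
    simp only
    split_ifs <;> linarith)
  right_inv x := Subtype.ext (by
    simp only
    split_ifs <;> linarith)

theorem rot_val (x : I01) : (rot x : ℝ) =
    if x.1 < 1 / 4 then 2 * x.1 else if x.1 < 1 / 2 then x.1 + 1 / 4 else (x.1 + 1) / 2 := rfl

noncomputable def D₀ : Rot I01 where
  e := half
  t := rot
  x₀ := ⟨0, by simp⟩
  dis x y h := by
    have := congrArg Subtype.val h
    simp only [half_val, Bool.toNat_false, Bool.toNat_true, Nat.cast_zero, Nat.cast_one] at this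
    linarith [x.2.2, y.2.1]
  t00 x := Subtype.ext (by
    simp only [rot_val, half_val, Bool.toNat_false, Nat.cast_zero]
    split_ifs <;> linarith [x.2.2, x.2.1])
  t01 x := Subtype.ext (by
    simp only [rot_val, half_val, Bool.toNat_false, Bool.toNat_true, Nat.cast_zero, Nat.cast_one]
    split_ifs <;> linarith [x.2.2, x.2.1])
  t1 x := Subtype.ext (by
    simp only [rot_val, half_val, Bool.toNat_true, Nat.cast_one]
    split_ifs <;> linarith [x.2.2, x.2.1])

theorem exists_half (x : I01) : ∃ b y, x = half b y := by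
  obtain ⟨x, h1, h2⟩ := x
  by_cases h : x < 1 / 2
  · exact ⟨false, ⟨2 * x, by linarith, by linarith⟩, Subtype.ext (by simp [half_val])⟩
  · exact ⟨true, ⟨2 * x - 1, by linarith, by linarith⟩, Subtype.ext (by simp [half_val])⟩

theorem on_half (b b' : Bool) (σ : Perm I01) (y : I01) :
    D₀.on b σ (half b' y) = half b' (if b' = b then σ y else y) := by
  split_ifs with h
  · rw [h]; exact D₀.on_same b σ y
  · refine D₀.on_out b σ ?_
    rintro ⟨z, hz⟩
    cases b <;> cases b'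
    · exact h rfl
    · exact D₀.dis _ _ hz
    · exact D₀.dis _ _ hz.symm
    · exact h rfl

theorem half_lt {b b' : Bool} {y y' : I01} :
    half b y < half b' y' ↔ b < b' ∨ (b = b' ∧ y < y') := by
  have h1 := y.2.1
  have h2 := y.2.2
  have h3 := y'.2.1
  have h4 := y'.2.2
  rw [← Subtype.coe_lt_coe, ← Subtype.coe_lt_coe (x := y), half_val, half_val]
  generalize (y : ℝ) = p at *
  generalize (y' : ℝ) = q at *
  cases b <;> cases b' <;> simp [Bool.lt_iff] <;>
    first | linarith | (constructor <;> intro <;> linarith)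

theorem mono_on (b : Bool) {σ : Perm I01} (h : StrictMono σ) : StrictMono (D₀.on b σ) := by
  intro x x' hx
  obtain ⟨c, y, rfl⟩ := exists_half x
  obtain ⟨c', y', rfl⟩ := exists_half x'
  rw [on_half, on_half, half_lt]
  rcases half_lt.1 hx with h1 | ⟨rfl, h1⟩
  · exact Or.inl h1
  · refine Or.inr ⟨rfl, ?_⟩
    split_ifs
    exacts [h h1, h1]

theorem dy_add {r s : ℝ} (hr : IsDyadic r) (hs : IsDyadic s) : IsDyadic (r + s) := by
  obtain ⟨a, b, rfl⟩ := hr
  obtain ⟨a', b', rfl⟩ := hs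
  refine ⟨a * 2 ^ b' + a' * 2 ^ b, b + b', ?_⟩
  push_cast
  field_simp
  ring

theorem dy_mul {r s : ℝ} (hr : IsDyadic r) (hs : IsDyadic s) : IsDyadic (r * s) := by
  obtain ⟨a, b, rfl⟩ := hr
  obtain ⟨a', b', rfl⟩ := hs
  refine ⟨a * a', b + b', ?_⟩
  push_cast
  field_simp
  ring

theorem dy_zpow (k : ℤ) : IsDyadic (2 ^ k) := by
  obtain ⟨n, rfl | rfl⟩ := Int.eq_nat_or_neg k
  · exact ⟨2 ^ n, 0, by simp⟩
  · exact ⟨1, n, by simp⟩

theorem pl_on (b : Bool) {σ : Perm I01} (h : IsPL σ) : IsPL (D₀.on b σ) := by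
  obtain ⟨n, h⟩ := h
  refine ⟨n + 1, fun j => ?_⟩
  have hn : (0 : ℝ) < 2 ^ n := by positivity
  have key : ∀ (c : Bool) (y : I01), (j : ℝ) / 2 ^ (n + 1) ≤ half c y →
      (half c y : ℝ) < (j + 1) / 2 ^ (n + 1) →
      (j : ℝ) ≤ (y + c.toNat) * 2 ^ n ∧ ((y : ℝ) + c.toNat) * 2 ^ n < j + 1 := by
    intro c y h1 h2
    rw [half_val, div_le_iff₀ (by positivity), pow_succ] at h1
    rw [half_val, lt_div_iff₀ (by positivity), pow_succ] at h2
    constructor <;> linarith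
  by_cases hj : b.toNat * 2 ^ n ≤ j ∧ j < (b.toNat + 1) * 2 ^ n
  · obtain ⟨i, rfl⟩ := Nat.exists_eq_add_of_le hj.1
    obtain ⟨k, d, h1, h2⟩ := h i
    refine ⟨k, (d + (b.toNat + -b.toNat * 2 ^ k)) * (1 / 2), dy_mul (dy_add h1 (dy_add
      ⟨b.toNat, 0, by simp⟩ (dy_mul ⟨-b.toNat, 0, by simp⟩ (dy_zpow k)))) ⟨1, 1, by simp⟩,
      fun x h3 h4 => ?_⟩
    obtain ⟨c, y, rfl⟩ := exists_half x
    obtain ⟨h5, h6⟩ := key c y h3 h4
    have h7 : ((b.toNat * 2 ^ n + i : ℕ) : ℝ) + 1 ≤ (((b.toNat + 1) * 2 ^ n : ℕ) : ℝ) := by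
      exact_mod_cast hj.2
    have h8 : (0 : ℝ) ≤ i := Nat.cast_nonneg i
    have h9 := mul_nonneg y.2.1 hn.le
    have h10 := mul_lt_mul_of_pos_right y.2.2 hn
    push_cast at h5 h6 h7
    have h11 : c = b := by
      cases b <;> cases c <;> simp at h5 h6 h7 ⊢ <;> linarith
    subst h11
    rw [on_half, if_pos rfl, half_val, half_val, h2 y (by rw [div_le_iff₀ hn]; linarith)
      (by rw [lt_div_iff₀ hn]; linarith)]
    ring
  · refine ⟨0, 0, ⟨0, 0, by simp⟩, fun x h3 h4 => ?_⟩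
    obtain ⟨c, y, rfl⟩ := exists_half x
    obtain ⟨h5, h6⟩ := key c y h3 h4
    rw [on_half, if_neg, zpow_zero, one_mul, add_zero]
    rintro rfl
    have h9 := mul_nonneg y.2.1 hn.le
    have h10 := mul_lt_mul_of_pos_right y.2.2 hn
    refine hj ⟨Nat.lt_succ_iff.1 ?_, ?_⟩
    · have : ((c.toNat * 2 ^ n : ℕ) : ℝ) < (j + 1 : ℕ) := by push_cast; linarith
      exact_mod_cast this
    · have : (j : ℝ) < ((c.toNat + 1) * 2 ^ n : ℕ) := by push_cast; linarith
      exact_mod_cast this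

theorem pl_rot : IsPL rot := by
  refine ⟨2, fun j => ?_⟩
  rcases j with _ | _ | j
  · refine ⟨1, 0, ⟨0, 0, by simp⟩, fun x _ h => ?_⟩
    rw [rot_val, if_pos (by norm_num at h ⊢; linarith)]
    ring
  · refine ⟨0, 1 / 4, ⟨1, 2, by norm_num⟩, fun x h h' => ?_⟩
    rw [rot_val, if_neg (by norm_num at h ⊢; linarith), if_pos (by norm_num at h' ⊢; linarith)]
    ring
  · refine ⟨-1, 1 / 2, ⟨1, 1, by norm_num⟩, fun x h _ => ?_⟩
    have h1 : (0 : ℝ) ≤ j := Nat.cast_nonneg j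
    push_cast at h
    rw [rot_val, if_neg (by linarith), if_neg (by linarith)]
    ring

theorem mono_rot : StrictMono rot := by
  intro x y h
  rw [← Subtype.coe_lt_coe] at h ⊢
  rw [rot_val, rot_val]
  split_ifs <;> linarith

theorem cone_pl : ∀ w, IsPL (D₀.cone w D₀.t) ∧ StrictMono (D₀.cone w D₀.t)
  | [] => ⟨pl_rot, mono_rot⟩
  | b :: w => ⟨pl_on b (cone_pl w).1, mono_on b (cone_pl w).2⟩

theorem thompson : ¬ Heat ThompsonF ∧ ¬ Heat ThompsonT ∧ ¬ Heat ThompsonV :=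
  ⟨D₀.not_heat _ fun w => Subgroup.subset_closure (cone_pl w),
    D₀.not_heat _ fun w => Subgroup.subset_closure ⟨(cone_pl w).1, fun _ _ _ h1 h2 =>
      Or.inl ⟨(cone_pl w).2 h1, (cone_pl w).2 h2⟩⟩,
    D₀.not_heat _ fun w => Subgroup.subset_closure (cone_pl w).1⟩

end Pool.Agent.Lib.MP_94b6b1_an.ZL
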