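import Pool.Agent.Lib.MP_94b6b1_an.Oper

set_option autoImplicit false

namespace Pool.Agent.Lib.MP_94b6b1_an.ZL

open Finset

variable {G : Type} [Group G]

def ex : Fin 3 → ℤ := ![0, 1, -1]

def sgn : Fin 3 → ℝ := ![1, 1, -1]

/-- the product of powers of the lamps -/
def Ph {n : ℕ} (R : Fin n → G) (k : Fin n → ℤ) : G := (List.ofFn fun i => R i ^ k i).prod

theorem Ph_succ {n : ℕ} (R : Fin (n + 1) → G) (k : Fin (n + 1) → ℤ) :
    Ph R k = R 0 ^ k 0 * Ph (Fin.tail R) (Fin.tail k) := by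
  simp [Ph, List.ofFn_succ, Fin.tail]

theorem Ph_cons {n : ℕ} (R : Fin (n + 1) → G) (e : Fin 3) (k : Fin n → Fin 3) :
    Ph R (fun i => ex (Fin.cons (α := fun _ => Fin 3) e k i)) =
      R 0 ^ ex e * Ph (Fin.tail R) fun i => ex (k i) := Ph_succ R _

theorem Ph_mem {n : ℕ} {R : Fin n → G} {K : Subgroup G} (h : ∀ i, R i ∈ K) (k : Fin n → ℤ) :
    Ph R k ∈ K := K.list_prod_mem fun x hx => by
  obtain ⟨i, rfl⟩ := List.mem_ofFn.1 hx
  exact K.zpow_mem (h i) _

theorem Ph_comm {n : ℕ} {R : Fin n → G} {x : G} (h : ∀ i, Commute x (R i)) (k : Fin n → ℤ) :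
    Commute x (Ph R k) := Commute.list_prod_right _ _ fun y hy => by
  obtain ⟨i, rfl⟩ := List.mem_ofFn.1 hy
  exact (h i).zpow_right _

theorem Ph_add {n : ℕ} {R : Fin n → G} (h : ∀ i j, Commute (R i) (R j)) (k k' : Fin n → ℤ) :
    Ph R (k + k') = Ph R k * Ph R k' := by
  induction n with
  | zero => simp [Ph]
  | succ n ih =>
    have h1 : Commute (R 0 ^ k' 0) (Ph (Fin.tail R) (Fin.tail k)) :=
      Ph_comm (fun i => (h 0 i.succ).zpow_left _) _
    rw [Ph_succ, Ph_succ R k, Ph_succ R k', show Fin.tail (k + k') = Fin.tail k + Fin.tail k' from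
      rfl, ih (R := Fin.tail R) fun i j => h i.succ j.succ, Pi.add_apply, zpow_add, mul_assoc, mul_assoc,
      ← mul_assoc (R 0 ^ k' 0), h1.eq, mul_assoc]

/-- A commuting independent set of lamps. -/
structure Lamps (L : Set G) : Prop where
  comm : ∀ x ∈ L, ∀ y ∈ L, Commute x y
  ind : ∀ x ∈ L, ∃ K : Subgroup G, (∀ y ∈ L, y ≠ x → y ∈ K) ∧ ∀ k : ℤ, x ^ k ∈ K → k = 0

variable {L : Set G}

theorem Lamps.eq_zero (hL : Lamps L) {n : ℕ} {R : Fin n → G} (hR : Function.Injective R)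
    (hm : ∀ i, R i ∈ L) {k : Fin n → ℤ} (h : Ph R k = 1) : k = 0 := by
  induction n with
  | zero => exact Subsingleton.elim _ _
  | succ n ih =>
    obtain ⟨K, h1, h2⟩ := hL.ind _ (hm 0)
    rw [Ph_succ] at h
    have h3 : k 0 = 0 := h2 _ (by
      rw [eq_inv_of_mul_eq_one_left h]
      exact K.inv_mem (Ph_mem (fun i => h1 _ (hm _) fun e => Fin.succ_ne_zero i (hR e)) _))
    rw [h3, zpow_zero, one_mul] at h
    have h4 := ih (R := Fin.tail R) (hR.comp (Fin.succ_injective n)) (fun i => hm _) h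
    funext i
    refine Fin.cases h3 (fun j => congrFun h4 j) i

theorem Lamps.inj (hL : Lamps L) {n : ℕ} {R : Fin n → G} (hR : Function.Injective R)
    (hm : ∀ i, R i ∈ L) : Function.Injective (Ph R) := fun k k' h => by
  have h1 := Ph_add (fun i j => hL.comm _ (hm i) _ (hm j)) (k - k') k'
  rw [sub_add_cancel, h] at h1
  exact sub_eq_zero.1 (hL.eq_zero hR hm (by simpa using h1))

theorem ex_inj : Function.Injective ex := by decide

theorem norm_flat (a : G) (η : L2 G) : ‖η + (lam a η - lam a⁻¹ η)‖ ^ 2 ≤ 5 * ‖η‖ ^ 2 := by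
  have h1 : inner ℂ η (lam a⁻¹ η) = inner ℂ (lam a η) η := by
    conv_lhs => rw [← inner_lam a, lam_lam, mul_inv_cancel, lam_one]
  have h2 := norm_sub_le (lam a η) (lam a⁻¹ η)
  rw [norm_lam, norm_lam] at h2
  rw [@norm_add_sq ℂ, inner_sub_right, h1, map_sub, inner_re_symm (lam a η)]
  nlinarith [norm_nonneg (lam a η - lam a⁻¹ η), norm_nonneg η]

theorem sum_succ {M : Type} [AddCommMonoid M] {n : ℕ} (f : (Fin (n + 1) → Fin 3) → M) :
    ∑ k, f k = ∑ e, ∑ k : Fin n → Fin 3, f (Fin.cons e k) := by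
  rw [← (Fin.consEquiv fun _ => Fin 3).sum_comp, Fintype.sum_prod_type]
  rfl

/-- the test operator -/
noncomputable def YY {n : ℕ} (R : Fin n → G) (z : G) : L2 G →L[ℂ] L2 G :=
  ∑ k : Fin n → Fin 3, ((∏ i, sgn (k i) : ℝ) : ℂ) • lam (Ph R (fun i => ex (k i)) * z)

theorem YY_norm {n : ℕ} (R : Fin n → G) (z : G) (ξ : L2 G) :
    ‖YY R z ξ‖ ^ 2 ≤ 5 ^ n * ‖ξ‖ ^ 2 := by
  induction n with
  | zero => simp [YY, norm_lam]
  | succ n ih =>
    have h1 : YY R z ξ = YY (Fin.tail R) z ξ +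
        (lam (R 0) (YY (Fin.tail R) z ξ) - lam (R 0)⁻¹ (YY (Fin.tail R) z ξ)) := by
      unfold YY
      rw [sum_succ, Fin.sum_univ_three]
      simp only [Ph_cons, Fin.prod_univ_succ, Fin.cons_zero, Fin.cons_succ, add_apply,
        _root_.sum_apply, smul_apply, map_sum, map_smul, lam_lam, sub_eq_add_neg,
        ← sum_neg_distrib, add_assoc]
      congr 1
      · exact sum_congr rfl fun k _ => by simp [ex, sgn]
      congr 1 <;> exact sum_congr rfl fun k _ => by simp [ex, sgn, mul_assoc]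
    rw [h1, pow_succ (5 : ℝ)]
    nlinarith [norm_flat (R 0) (YY (Fin.tail R) z ξ), ih (Fin.tail R)]

theorem YY_opNorm {n : ℕ} (R : Fin n → G) (z : G) : ‖YY R z‖ ≤ √5 ^ n := by
  refine ContinuousLinearMap.opNorm_le_bound _ (by positivity) fun ξ => ?_
  rw [← sq_le_sq₀ (by positivity) (by positivity), mul_pow, ← pow_mul, mul_comm n,
    pow_mul, Real.sq_sqrt (by norm_num)]
  exact YY_norm R z ξ

theorem key_inj (hL : Lamps L) {n : ℕ} {R : Fin n → G} (hR : Function.Injective R)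
    (hm : ∀ i, R i ∈ L) (z : G) :
    Function.Injective fun k : Fin n → Fin 3 => Ph R (fun i => ex (k i)) * z := fun _ _ h =>
  funext fun i => ex_inj (congrFun (hL.inj hR hm (mul_right_cancel h)) i)

theorem YY_coeff (hL : Lamps L) {n : ℕ} {R : Fin n → G} (hR : Function.Injective R)
    (hm : ∀ i, R i ∈ L) (z : G) (k : Fin n → Fin 3) :
    coeff (YY R z) (Ph R (fun i => ex (k i)) * z) = (∏ i, sgn (k i) : ℝ) := by
  rw [← coeffL_apply, YY, map_sum, sum_eq_single k]
  · rw [map_smul, coeffL_apply, coeff_lam, if_pos rfl, smul_eq_mul, mul_one]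
  · intro j _ hj
    rw [map_smul, coeffL_apply, coeff_lam, if_neg fun h => hj (key_inj hL hR hm z h), smul_zero]
  · simp

open Classical in
/-- indicator of a finite set -/
noncomputable def ind (S : Finset G) : L2 G := ∑ g ∈ S, lp.single 2 g (1 : ℂ)

theorem inner_ind {S S' : Finset G} {g : G} (h : ∀ s ∈ S, g * s ∈ S') :
    inner ℂ (lam g (ind S)) (ind S') = S.card := by
  classical
  have h1 : ∀ s, lam g (lp.single 2 s (1 : ℂ)) = lp.single 2 (g * s) (1 : ℂ) := by
    intro s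
    ext x
    rw [lam_apply, lp.single_apply, lp.single_apply, Pi.single_apply, Pi.single_apply]
    simp only [inv_mul_eq_iff_eq_mul]
  have h2 : ∀ s ∈ S', ind S' s = 1 := by
    intro s hs
    rw [ind, lp.coeFn_sum, Finset.sum_apply, sum_eq_single s]
    · simp
    · intro b _ hb
      simp [lp.single_apply, hb.symm]
    · exact fun h => absurd hs h
  rw [ind, map_sum, sum_inner, card_eq_sum_ones, Nat.cast_sum]
  refine sum_congr rfl fun s hs => ?_
  convert_to inner ℂ (lam g (lp.single 2 s (1 : ℂ))) (ind S') = _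
  rw [h1, lp.inner_single_left, h2 _ (h s hs)]
  simp

theorem norm_ind (S : Finset G) : ‖ind S‖ ^ 2 = S.card := by
  have := inner_ind (S := S) (S' := S) (g := 1) (by simp)
  rw [lam_one] at this
  rw [← @inner_self_eq_norm_sq ℂ, this]
  simp

theorem sum_le_norm {ι : Type} (A : Finset ι) (g : ι → G) (w : ι → ℝ) {c : ℝ} (hc : |c| = 1)
    {S S' : Finset G} (h : ∀ i ∈ A, ∀ s ∈ S, g i * s ∈ S') (hne : 0 < S.card)
    (hcard : (S'.card : ℝ) ≤ 4 * S.card) :
    ∑ i ∈ A, w i ≤ 2 * ‖∑ i ∈ A, ((w i : ℂ) * c) • lam (g i)‖ := by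
  set T := ∑ i ∈ A, ((w i : ℂ) * c) • lam (g i) with hT
  have h1 : inner ℂ (T (ind S)) (ind S') = (((∑ i ∈ A, w i) * c * S.card : ℝ) : ℂ) := by
    rw [hT, _root_.sum_apply, sum_inner]
    push_cast
    rw [sum_mul, sum_mul]
    refine sum_congr rfl fun i hi => ?_
    rw [Pi.smul_apply, inner_smul_left, inner_ind (h i hi)]
    simp
  have h2 := norm_inner_le_norm (𝕜 := ℂ) (T (ind S)) (ind S')
  rw [h1, Complex.norm_real, Real.norm_eq_abs, abs_mul, abs_mul, hc, mul_one,
    Nat.abs_cast] at h2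
  have h3 := T.le_opNorm (ind S)
  have h4 : ‖ind S'‖ ≤ 2 * ‖ind S‖ := by
    rw [← sq_le_sq₀ (by positivity) (by positivity), mul_pow, norm_ind, norm_ind]
    linarith
  have h5 : (0 : ℝ) < S.card := by exact_mod_cast hne
  have h6 := mul_le_mul h3 h4 (norm_nonneg _) (by positivity)
  refine (le_abs_self _).trans (le_of_mul_le_mul_right (h2.trans (h6.trans_eq ?_)) h5)
  rw [← norm_ind]
  ring

theorem pow_ratio (n : ℕ) : (2 * n + 3 : ℝ) ^ n ≤ 4 * (2 * n + 1) ^ n := by
  have h0 : (0 : ℝ) < 2 * n + 1 := by positivity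
  have h1 : (2 * n + 3 : ℝ) ≤ Real.exp (2 / (2 * n + 1)) * (2 * n + 1) := by
    have := Real.add_one_le_exp (2 / (2 * n + 1 : ℝ))
    calc (2 * n + 3 : ℝ) = (2 / (2 * n + 1) + 1) * (2 * n + 1) := by field_simp; ring
      _ ≤ _ := by gcongr
  refine (pow_le_pow_left₀ (by positivity) h1 n).trans ?_
  rw [mul_pow, ← Real.exp_nat_mul]
  gcongr
  have h2 : (n : ℝ) * (2 / (2 * n + 1)) ≤ 1 := by
    rw [← mul_div_assoc, div_le_one h0]; linarith
  exact (Real.exp_le_exp.2 h2).trans (by linarith [Real.exp_one_lt_d9])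

theorem coset_bound (hL : Lamps L) (w : G → ℝ) {C : ℝ} (hC0 : 0 < C)
    (hC : ∀ x ∈ Cr G, ∀ F : Finset G, ‖∑ g ∈ F, ((w g : ℂ) * coeff x g) • lam g‖ ≤ C * ‖x‖)
    {n : ℕ} {R : Fin n → G} (hR : Function.Injective R) (hm : ∀ i, R i ∈ L) (z : G) :
    ∑ k : Fin n → Fin 3, w (Ph R (fun i => ex (k i)) * z) ≤ 4 * C * √5 ^ n := by
  classical
  have hcard : ∀ N : ℕ, (Fintype.piFinset fun _ : Fin n => Icc (-(N : ℤ)) N).card =
      (2 * N + 1) ^ n := by
    intro N
    rw [Fintype.card_piFinset, prod_const, card_univ, Fintype.card_fin, Int.card_Icc]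
    congr 1
    omega
  have hz : Function.Injective fun j => z⁻¹ * Ph R j :=
    (mul_right_injective _).comp (hL.inj hR hm)
  have h1 : ∀ c : ℝ, |c| = 1 → ∑ k ∈ univ.filter (fun k : Fin n → Fin 3 => ∏ i, sgn (k i) = c),
      w (Ph R (fun i => ex (k i)) * z) ≤ 2 * C * √5 ^ n := by
    intro c hc
    have h2 := sum_le_norm (univ.filter fun k : Fin n → Fin 3 => ∏ i, sgn (k i) = c)
      (fun k => Ph R (fun i => ex (k i)) * z) (fun k => w (Ph R (fun i => ex (k i)) * z)) hc
      (S := (Fintype.piFinset fun _ : Fin n => Icc (-(n : ℤ)) n).image fun j => z⁻¹ * Ph R j)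
      (S' := (Fintype.piFinset fun _ : Fin n => Icc (-((n + 1 : ℕ) : ℤ)) (n + 1 : ℕ)).image (Ph R))
      (fun k _ s hs => by
        obtain ⟨j, hj, rfl⟩ := mem_image.1 hs
        rw [mul_assoc, mul_inv_cancel_left, ← Ph_add fun i j => hL.comm _ (hm i) _ (hm j)]
        refine mem_image_of_mem _ (Fintype.mem_piFinset.2 fun i => ?_)
        have h2 := mem_Icc.1 (Fintype.mem_piFinset.1 hj i)
        have h3 : -1 ≤ ex (k i) ∧ ex (k i) ≤ 1 := by generalize k i = e; revert e; decide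
        simp only [mem_Icc, Pi.add_apply]
        omega)
      (by
        rw [card_image_of_injective _ hz, hcard]
        positivity)
      (by
        rw [card_image_of_injective _ hz, hcard,
          card_image_of_injective _ (hL.inj hR hm), hcard]
        have := pow_ratio n
        push_cast
        rwa [show (2 * ((n : ℝ) + 1) + 1) = 2 * n + 3 by ring])
    have h3 := hC (YY R z) (Submodule.sum_mem _ fun _ _ => Submodule.smul_mem _ _ (lam_mem _))
      ((univ.filter fun k : Fin n → Fin 3 => ∏ i, sgn (k i) = c).image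
        fun k => Ph R (fun i => ex (k i)) * z)
    rw [sum_image fun a _ b _ h => key_inj hL hR hm z h, sum_congr rfl fun k hk => by
      rw [YY_coeff hL hR hm, (mem_filter.1 hk).2]] at h3
    have h4 := mul_le_mul_of_nonneg_left (YY_opNorm R z) hC0.le
    linarith
  rw [← sum_filter_add_sum_filter_not univ fun k : Fin n → Fin 3 => ∏ i, sgn (k i) = 1]
  have h2 : (univ.filter fun k : Fin n → Fin 3 => ¬ ∏ i, sgn (k i) = 1) =
      univ.filter fun k : Fin n → Fin 3 => ∏ i, sgn (k i) = -1 := by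
    refine filter_congr fun k _ => ?_
    have h2 : |∏ i, sgn (k i)| = 1 := by
      rw [abs_prod]
      exact prod_eq_one fun i _ => by generalize k i = e; fin_cases e <;> simp [sgn]
    rcases (abs_eq zero_le_one).1 h2 with h | h <;> rw [h] <;> norm_num
  rw [h2]
  linarith [h1 1 abs_one, h1 (-1) (by simp)]

/-- average over the configurations on `R` -/
noncomputable def EE {n : ℕ} (R : Fin n → G) (F : G → ℝ) (g : G) : ℝ :=
  (∑ k : Fin n → Fin 3, F (Ph R (fun i => ex (k i)) * g)) / 3 ^ n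

theorem large_of_heat (hL : Lamps L) {d : G → ℝ}
    (H : ∀ t : ℝ, 0 < t → ∀ x ∈ closedSpan (lam (G := G)),
      Converges (fun g : G => (Real.exp (-t * d g) : ℂ) * coeff x g) lam) {K : ℝ} (hK : 0 < K) :
    ∃ c : ℝ, ∀ (n : ℕ) (R : Fin n → G), Function.Injective R → (∀ i, R i ∈ L) → ∀ z,
      K * n - c ≤ EE R d z := by
  have hs : 0 < √5 := by positivity
  have hl : 0 < Real.log 3 - Real.log √5 := sub_pos.2 (Real.log_lt_log hs (by
    rw [Real.sqrt_lt' (by norm_num)]; norm_num))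
  set t := (Real.log 3 - Real.log √5) / K with ht
  have ht0 : 0 < t := by positivity
  obtain ⟨C, hC0, hC⟩ := unif_bound _ (H t ht0)
  refine ⟨Real.log (4 * C) / t, fun n R hR hm z => ?_⟩
  have h1 := coset_bound hL (fun g => Real.exp (-t * d g)) hC0 hC hR hm z
  set D := EE R d z with hD
  have hD' : ∑ k : Fin n → Fin 3, d (Ph R (fun i => ex (k i)) * z) = 3 ^ n * D := by
    rw [hD, EE]
    field_simp
  have h2 : ∑ k : Fin n → Fin 3,
      Real.exp (-t * D) * (1 + t * D - t * d (Ph R (fun i => ex (k i)) * z))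
      ≤ ∑ k : Fin n → Fin 3, Real.exp (-t * d (Ph R (fun i => ex (k i)) * z)) := by
    refine sum_le_sum fun k _ => ?_
    generalize d (Ph R (fun i => ex (k i)) * z) = u
    have := Real.add_one_le_exp (t * D - t * u)
    rw [show -t * u = -t * D + (t * D - t * u) by ring, Real.exp_add]
    apply mul_le_mul_of_nonneg_left _ (Real.exp_pos _).le
    linarith
  rw [← mul_sum, sum_sub_distrib, ← mul_sum, hD', sum_const, card_univ, Fintype.card_fun,
    Fintype.card_fin, Fintype.card_fin, nsmul_eq_mul] at h2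
  have h3 : Real.exp (-t * D) * 3 ^ n ≤ 4 * C * √5 ^ n := by
    refine le_trans (le_of_eq ?_) (h2.trans h1)
    push_cast
    ring
  have h4 := Real.log_le_log (by positivity) h3
  rw [Real.log_mul (by positivity) (by positivity), Real.log_mul (by positivity) (by positivity),
    Real.log_exp, Real.log_pow, Real.log_pow] at h4
  have h5 : K * t = Real.log 3 - Real.log √5 := by rw [ht]; field_simp
  rw [sub_le_iff_le_add, ← sub_le_iff_le_add', le_div_iff₀ ht0]
  have h6 : (K * n - D) * t = n * (K * t) - t * D := by ring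
  rw [h6, h5]
  linarith

end Pool.Agent.Lib.MP_94b6b1_an.ZL
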