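import Pool.Agent.Lib.MP_94b6b1_an.ZWalk

set_option autoImplicit false

namespace Pool.Agent.Lib.MP_94b6b1_an.ZL

open Equiv

/-- Two halves of a set and the rotation. -/
structure Rot (X : Type) where
  e : Bool → X ↪ X
  t : Perm X
  x₀ : X
  dis : ∀ x y, e false x ≠ e true y
  t00 : ∀ x, t (e false (e false x)) = e false x
  t01 : ∀ x, t (e false (e true x)) = e true (e false x)
  t1 : ∀ x, t (e true x) = e true (e true x)

namespace Rot

variable {X : Type} (D : Rot X)

noncomputable def on (b : Bool) : Perm X →* Perm X := Perm.viaEmbeddingHom (D.e b)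

theorem on_same (b : Bool) (σ : Perm X) (x : X) : D.on b σ (D.e b x) = D.e b (σ x) :=
  Perm.viaEmbedding_apply _ _ _

theorem on_out (b : Bool) (σ : Perm X) {y : X} (h : y ∉ Set.range (D.e b)) : D.on b σ y = y :=
  Perm.viaEmbedding_apply_of_notMem _ _ _ h

theorem on_tf (σ : Perm X) (x : X) : D.on true σ (D.e false x) = D.e false x :=
  D.on_out _ _ fun ⟨_, h⟩ => D.dis _ _ h.symm

def pre : List Bool → X → X
  | [], x => x
  | b :: u, x => D.e b (pre u x)

noncomputable def cone : List Bool → Perm X →* Perm X
  | [] => MonoidHom.id _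
  | b :: u => (D.on b).comp (cone u)

theorem cone_pre (σ : Perm X) (x : X) : ∀ u, D.cone u σ (D.pre u x) = D.pre u (σ x)
  | [] => rfl
  | b :: u => by simp only [cone, pre, MonoidHom.comp_apply, on_same, cone_pre σ x u]

theorem cone_out (σ : Perm X) : ∀ (u : List Bool) (y : X), (∀ x, y ≠ D.pre u x) → D.cone u σ y = y
  | [], y, h => absurd rfl (h y)
  | b :: u, y, h => by
    by_cases hy : y ∈ Set.range (D.e b)
    · obtain ⟨z, rfl⟩ := hy
      simp only [cone, MonoidHom.comp_apply, on_same]
      rw [cone_out σ u z fun x hx => h x (by rw [hx]; rfl)]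
    · exact D.on_out b _ hy

theorem pre_inj : ∀ u, Function.Injective (D.pre u)
  | [] => fun _ _ h => h
  | b :: u => (D.e b).injective.comp (pre_inj u)

theorem conj_cone {s : Perm X} {u v : List Bool} (h : ∀ x, s (D.pre u x) = D.pre v x)
    (σ : Perm X) : s * D.cone u σ * s⁻¹ = D.cone v σ := by
  ext y
  obtain ⟨z, rfl⟩ := s.surjective y
  simp only [Perm.mul_apply, Perm.coe_inv, symm_apply_apply]
  by_cases hz : ∃ x, z = D.pre u x
  · obtain ⟨x, rfl⟩ := hz
    rw [cone_pre, h, h, cone_pre]
  · push Not at hz
    rw [D.cone_out σ u z hz, D.cone_out σ v _ fun x hx => hz x (s.injective (hx.trans (h x).symm))]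

/-- the gap of a node of the binary tree -/
def gap : List Bool → List Bool
  | [] => [true, false]
  | false :: w => false :: gap w
  | true :: w => true :: true :: gap w

theorem gap_dis : ∀ (w w' : List Bool) (x y : X), D.pre (gap w) x = D.pre (gap w') y → w = w'
  | [], [], _, _, _ => rfl
  | [], false :: _, _, _, h => absurd h.symm (D.dis _ _)
  | [], true :: _, _, _, h => absurd ((D.e true).injective h) (D.dis _ _)
  | false :: _, [], _, _, h => absurd h (D.dis _ _)
  | false :: w, false :: w', x, y, h => by rw [gap_dis w w' x y ((D.e false).injective h)]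
  | false :: _, true :: _, _, _, h => absurd h (D.dis _ _)
  | true :: _, [], _, _, h => absurd ((D.e true).injective h).symm (D.dis _ _)
  | true :: _, false :: _, _, _, h => absurd h.symm (D.dis _ _)
  | true :: w, true :: w', x, y, h => by
    rw [gap_dis w w' x y ((D.e true).injective ((D.e true).injective h))]

def al : List Bool → List Bool
  | [] => [true]
  | [false] => []
  | false :: false :: w => false :: w
  | false :: true :: w => true :: false :: w
  | true :: w => true :: true :: w

def al' : List Bool → List Bool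
  | [] => [false]
  | [true] => []
  | false :: w => false :: false :: w
  | true :: false :: w => false :: true :: w
  | true :: true :: w => true :: w

def be (f : List Bool → List Bool) : List Bool → List Bool
  | true :: w => true :: f w
  | w => w

theorem al_al' : ∀ w, al (al' w) = w
  | [] => rfl
  | [true] => rfl
  | false :: _ => rfl
  | true :: false :: _ => rfl
  | true :: true :: _ => rfl

theorem be_be' : ∀ w, be al (be al' w) = w
  | [] => rfl
  | false :: _ => rfl
  | true :: w => congrArg _ (al_al' w)

noncomputable def a : Perm X := D.on true D.t * D.t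

noncomputable def b : Perm X := D.on true (D.on true D.a)

theorem a_gap (x : X) : ∀ w, D.a (D.pre (gap w) x) = D.pre (gap (al w)) x
  | [] => by simp only [a, gap, al, pre, Perm.mul_apply, t1, on_same]
  | [false] => by simp only [a, gap, al, pre, Perm.mul_apply, t01, t00, on_same]
  | false :: false :: w => by simp only [a, gap, al, pre, Perm.mul_apply, t00, on_tf]
  | false :: true :: w => by simp only [a, gap, al, pre, Perm.mul_apply, t01, on_same]
  | true :: w => by simp only [a, gap, al, pre, Perm.mul_apply, t1, on_same]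

theorem b_gap (x : X) : ∀ w, D.b (D.pre (gap w) x) = D.pre (gap (be al w)) x
  | [] => by simp only [b, gap, be, pre, on_same, on_tf]
  | false :: w => by simp only [b, gap, be, pre, on_tf]
  | true :: w => by simp only [b, gap, be, pre, on_same, a_gap]

/-- the lamp at a node -/
noncomputable def c (w : List Bool) : Perm X := D.cone (gap w) D.t

noncomputable def mv : Bool × Bool → Perm X
  | (false, false) => D.a
  | (false, true) => D.a⁻¹
  | (true, false) => D.b
  | (true, true) => D.b⁻¹

def rho : Bool × Bool → List Bool → List Bool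
  | (false, false) => al'
  | (false, true) => al
  | (true, false) => be al'
  | (true, true) => be al

theorem mv_c (w : List Bool) : ∀ v, (D.mv v)⁻¹ * D.c w * D.mv v = D.c (rho v w)
  | (false, false) => by
    have := D.conj_cone (fun x => D.a_gap x (al' w)) D.t
    rw [al_al'] at this
    simp only [mv, rho, c, ← this]
    group
  | (false, true) => D.conj_cone (fun x => D.a_gap x w) D.t
  | (true, false) => by
    have := D.conj_cone (fun x => D.b_gap x (be al' w)) D.t
    rw [be_be'] at this
    simp only [mv, rho, c, ← this]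
    group
  | (true, true) => D.conj_cone (fun x => D.b_gap x w) D.t

theorem c_fix {w w' : List Bool} (h : w ≠ w') (x : X) :
    D.c w (D.pre (gap w') x) = D.pre (gap w') x :=
  D.cone_out _ _ _ fun y hy => h (D.gap_dis _ _ _ _ hy).symm

theorem t_zpow {k : ℤ} (h : D.t ^ k = 1) : k = 0 := by
  refine injective_zpow_iff_not_isOfFinOrder.2 (fun h1 => ?_) (h.trans (zpow_zero _).symm)
  obtain ⟨n, hn, h2⟩ := isOfFinOrder_iff_pow_eq_one.1 h1
  have h3 : ∀ n x, (D.t ^ n) (D.e true x) = D.e true ((D.e true)^[n] x) := by
    intro n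
    induction n with
    | zero => intro x; rfl
    | succ n ih => intro x; rw [pow_succ, Perm.mul_apply, D.t1, ih, Function.iterate_succ_apply]
  obtain ⟨n, rfl⟩ := Nat.exists_eq_add_one.2 hn
  have h4 := h3 (n + 1) (D.e false D.x₀)
  rw [h2, Function.iterate_succ_apply'] at h4
  exact D.dis _ _ ((D.e true).injective h4)

theorem c_zpow {w : List Bool} {k : ℤ}
    (h : ∀ x, (D.c w ^ k) (D.pre (gap w) x) = D.pre (gap w) x) : k = 0 := by
  refine D.t_zpow (Equiv.ext fun x => D.pre_inj (gap w) ?_)
  rw [← D.cone_pre, map_zpow]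
  exact h x

theorem c_inj : Function.Injective D.c := fun w w' h => by
  by_contra h1
  exact one_ne_zero (D.c_zpow (w := w) (k := 1) fun x => by
    rw [zpow_one, h]; exact D.c_fix (Ne.symm h1) x)

theorem c_comm (w w' : List Bool) : Commute (D.c w) (D.c w') := by
  by_cases h : w = w'
  · rw [h]
  refine Perm.Disjoint.commute fun y => ?_
  by_cases hy : ∃ x, y = D.pre (gap w') x
  · obtain ⟨x, rfl⟩ := hy
    exact Or.inl (D.c_fix h x)
  · push Not at hy
    exact Or.inr (D.cone_out _ _ _ hy)

noncomputable def uL : List Bool → ℝ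
  | [] => 1
  | false :: w => uL w
  | true :: w => (2 / 3) ^ (w.length + 1)

noncomputable def uR : List Bool → ℝ
  | [] => 1
  | true :: w => uR w
  | false :: w => 5 / 6 * (2 / 3) ^ (w.length + 1)

/-- a superharmonic function on the Schreier graph -/
noncomputable def u : List Bool → ℝ
  | [] => 1
  | false :: w => uL w
  | [true] => 1
  | true :: false :: w => (2 / 3) ^ (w.length + 1)
  | true :: true :: w => uR w

theorem uL_nonneg : ∀ w, 0 ≤ uL w
  | [] => zero_le_one
  | false :: w => uL_nonneg w
  | true :: _ => by simp only [uL]; positivity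

theorem uR_nonneg : ∀ w, 0 ≤ uR w
  | [] => zero_le_one
  | true :: w => uR_nonneg w
  | false :: _ => by simp only [uR]; positivity

theorem u_nonneg : ∀ w, 0 ≤ u w
  | [] => zero_le_one
  | false :: w => uL_nonneg w
  | [true] => zero_le_one
  | true :: false :: _ => by simp only [u]; positivity
  | true :: true :: w => uR_nonneg w

theorem u_super : ∀ w, w ≠ [true] →
    u (be al w) + u (be al' w) + (u (al w) + u (al' w)) ≤ 4 * u w
  | [], _ => by norm_num [u, uL, uR, al, al', be]
  | [true], h => absurd rfl h
  | [false], _ => by norm_num [u, uL, uR, al, al', be]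
  | false :: false :: w, _ => by simp only [u, uL, uR, al, al', be]; linarith
  | false :: true :: w, _ => by simp only [u, uL, uR, al, al', be]; linarith
  | [true, false], _ => by norm_num [u, uL, uR, al, al', be]
  | true :: false :: false :: w, _ => by
    simp only [u, uL, uR, al, al', be, List.length_cons, pow_succ]
    linarith [show (0 : ℝ) ≤ (2 / 3) ^ w.length by positivity]
  | true :: false :: true :: w, _ => by
    simp only [u, uL, uR, al, al', be, List.length_cons, pow_succ]
    linarith [show (0 : ℝ) ≤ (2 / 3) ^ w.length by positivity]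
  | [true, true], _ => by norm_num [u, uL, uR, al, al', be]
  | true :: true :: false :: w, _ => by
    simp only [u, uL, uR, al, al', be, List.length_cons, pow_succ]
    linarith [show (0 : ℝ) ≤ (2 / 3) ^ w.length by positivity]
  | true :: true :: true :: w, _ => by simp only [u, uL, uR, al, al', be]; linarith

theorem not_heat (H : Subgroup (Perm X)) (hH : ∀ w, D.cone w D.t ∈ H) : ¬ Heat H := by
  have ha : D.a ∈ H := H.mul_mem (hH [true]) (hH [])
  have hb : D.b ∈ H := by
    rw [b, a, map_mul, map_mul]
    exact H.mul_mem (hH [true, true, true]) (hH [true, true])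
  have hm : ∀ v, D.mv v ∈ H := by
    rintro ⟨_ | _, _ | _⟩
    exacts [ha, H.inv_mem ha, hb, H.inv_mem hb]
  let c : List Bool → H := fun w => ⟨D.c w, hH _⟩
  have hc : Function.Injective c := fun _ _ h => D.c_inj (congrArg Subtype.val h)
  let m : Bool × Bool → H := fun v => ⟨D.mv v, hm v⟩
  have hmc : ∀ v w, (m v)⁻¹ * c w * m v = c (rho v w) := fun v w => Subtype.ext (D.mv_c w v)
  have hh : ∀ w, Function.extend c (fun w => 1 - u w) 0 (c w) = 1 - u w := hc.extend_apply _ _
  refine ZL.not_heat (m := m) (c := c [true]) (L := Set.range c)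
    (h := Function.extend c (fun w => 1 - u w) 0) ⟨?_, ?_⟩ ⟨_, rfl⟩
    (Equiv.prodCongr (Equiv.refl _) Equiv.boolNot) ?_ ?_ ?_ ?_ ?_ ?_
  · rintro _ ⟨w, rfl⟩ _ ⟨w', rfl⟩
    exact Subtype.ext (D.c_comm w w')
  · rintro _ ⟨w, rfl⟩
    refine ⟨(fixingSubgroup (Perm X) (Set.range (D.pre (gap w)))).comap H.subtype, ?_,
      fun k hk => D.c_zpow (w := w) fun x => ?_⟩
    · rintro _ ⟨w', rfl⟩ h
      refine (mem_fixingSubgroup_iff _).2 ?_
      rintro _ ⟨x, rfl⟩
      exact D.c_fix (fun e => h (by rw [e])) x
    · exact (mem_fixingSubgroup_iff _).1 hk _ ⟨x, rfl⟩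
  · rintro ⟨_ | _, _ | _⟩ <;> rfl
  · rintro v _ ⟨w, rfl⟩
    exact ⟨_, (hmc v w).symm⟩
  · rw [hh]; simp [u]
  · rintro _ ⟨w, rfl⟩
    rw [hh]; linarith [u_nonneg w]
  · rintro _ ⟨w, rfl⟩ h
    have := u_super w fun e => h (by rw [e])
    simp only [hmc, hh, Fintype.sum_prod_type, Fintype.sum_bool, rho, Fintype.card_prod,
      Fintype.card_bool]
    push_cast
    linarith
  · simp only [hmc, hh, Fintype.sum_prod_type, Fintype.sum_bool, rho]
    norm_num [u, uL, uR, al, al', be]

end Rot

end Pool.Agent.Lib.MP_94b6b1_an.ZL
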