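import Pool.Agent.Lib.MP_94b6b1_an.ZOper

set_option autoImplicit false

namespace Pool.Agent.Lib.MP_94b6b1_an.ZL

open Finset

variable {G S : Type} [Group G] [Fintype S] [Nonempty S]

/-- average over words of length `n` -/
noncomputable def Av : ℕ → (List S → ℝ) → ℝ
  | 0, F => F []
  | n + 1, F => (∑ v : S, Av n (fun l => F (v :: l))) / Fintype.card S

omit [Nonempty S] in
theorem Av_mono (n : ℕ) : ∀ {F F' : List S → ℝ}, (∀ l, F l ≤ F' l) → Av n F ≤ Av n F' := by
  induction n with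
  | zero => intro F F' h; exact h []
  | succ n ih =>
    intro F F' h
    simp only [Av]
    gcongr with v
    exact ih fun l => h _

theorem Av_lin (n : ℕ) (a b c : ℝ) : ∀ F F' : List S → ℝ,
    Av n (fun l => a * F l + b * F' l + c) = a * Av n F + b * Av n F' + c := by
  have hc : (0 : ℝ) < Fintype.card S := by exact_mod_cast Fintype.card_pos
  induction n with
  | zero => intro F F'; rfl
  | succ n ih =>
    intro F F'
    simp only [Av, ih, sum_add_distrib, ← mul_sum, sum_const, card_univ, nsmul_eq_mul]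
    field_simp

variable (m : S → G) (c : G)

open Classical in
/-- the lamps visited -/
noncomputable def rng : G → List S → Finset G
  | _, [] => ∅
  | g, v :: l => insert (g * c * g⁻¹) (rng (g * m v) l)

def st (σ : Fin 3 × S × Fin 3) : G := c ^ ex σ.1 * m σ.2.1 * c ^ ex σ.2.2

variable {m c} {L : Set G}

theorem EE_cons (hL : Lamps L) {n : ℕ} {R : Fin n → G} (hm : ∀ i, R i ∈ L) {x : G} (hx : x ∈ L)
    (F : G → ℝ) (g : G) : EE (Fin.cons x R : Fin (n + 1) → G) F g =
      (∑ e, EE R F (x ^ ex e * g)) / 3 := by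
  unfold EE
  rw [sum_succ, ← sum_div, div_div, pow_succ]
  congr 1
  refine sum_congr rfl fun e _ => sum_congr rfl fun k _ => ?_
  rw [Ph_cons, Fin.cons_zero, Fin.tail_cons, ← mul_assoc,
    (Ph_comm (fun i => (hL.comm _ hx _ (hm i)).zpow_left _) _).eq]

omit [Nonempty S] in
theorem EE_Pop {n : ℕ} (R : Fin n → G) (F : G → ℝ) (g : G) : EE R (Pop (st m c) F) g =
    (∑ v : S, (∑ e', (∑ e, EE R F (g * c ^ ex e * (m v * c ^ ex e'))) / 3) / 3) /
      Fintype.card S := by
  simp only [EE, Pop_apply, Fintype.sum_prod_type, Fintype.card_prod, Fintype.card_fin, st,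
    ← sum_div, div_div, mul_assoc]
  rw [sum_comm]
  congr 1
  · rw [sum_congr rfl fun e _ => sum_comm, sum_comm]
    refine sum_congr rfl fun v _ => ?_
    rw [sum_congr rfl fun e _ => sum_comm, sum_comm]
  · push_cast
    ring

open Classical in
theorem walk_lb (hL : Lamps L) (hc : c ∈ L) (hmL : ∀ v, ∀ x ∈ L, m v * x * (m v)⁻¹ ∈ L)
    {d : G → ℝ} {K C : ℝ} (H : ∀ (n : ℕ) (R : Fin n → G), Function.Injective R →
      (∀ i, R i ∈ L) → ∀ z, K * n - C ≤ EE R d z) (n : ℕ) :
    ∀ (r : ℕ) (R : Fin r → G), Function.Injective R → (∀ i, R i ∈ L) → ∀ g g' : G,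
      (∀ x ∈ L, g * x * g⁻¹ ∈ L) → (∀ x ∈ L, g' * x * g'⁻¹ = g * x * g⁻¹) →
      Av n (fun l => K * (univ.image R ∪ rng m c g l).card - C) ≤
        EE R ((Pop (st m c) ^ n) d) g' := by
  have hS : (0 : ℝ) < Fintype.card S := by exact_mod_cast Fintype.card_pos
  induction n with
  | zero =>
    intro r R hR hm g g' _ _
    simpa [Av, rng, card_image_of_injective _ hR] using H r R hR hm g'
  | succ n ih =>
    intro r R hR hm g g' hg hg'
    rw [pow_succ', Module.End.mul_apply, EE_Pop]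
    simp only [Av, rng]
    gcongr with v
    rw [le_div_iff₀ (by norm_num)]
    refine le_trans (le_of_eq ?_) (card_nsmul_le_sum univ _ (Av n fun l =>
      K * (univ.image R ∪ insert (g * c * g⁻¹) (rng m c (g * m v) l)).card - C) fun e' _ => ?_)
    · simp [mul_comm]
    have h1 : ∀ x ∈ L, g * m v * x * (g * m v)⁻¹ ∈ L := fun x hx => by
      simpa [mul_assoc] using hg _ (hmL v x hx)
    have h2 : ∀ x ∈ L, g' * (m v * c ^ ex e') * x * (g' * (m v * c ^ ex e'))⁻¹ =
        g * m v * x * (g * m v)⁻¹ := fun x hx => by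
      have h2 := hg' _ (hmL v x hx)
      have h3 : c ^ ex e' * x * (c ^ ex e')⁻¹ = x := by
        rw [((hL.comm _ hc _ hx).zpow_left _).eq, mul_inv_cancel_right]
      calc _ = g' * (m v * (c ^ ex e' * x * (c ^ ex e')⁻¹) * (m v)⁻¹) * g'⁻¹ := by group
        _ = _ := by rw [h3, h2]; group
    have h3 : ∀ e, g' * c ^ ex e * (m v * c ^ ex e') =
        (g * c * g⁻¹) ^ ex e * (g' * (m v * c ^ ex e')) := fun e => by
      rw [← hg' c hc, conj_zpow]; group
    simp only [h3]
    by_cases h4 : g * c * g⁻¹ ∈ Set.range R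
    · rw [le_div_iff₀ (by norm_num)]
      refine le_trans (le_of_eq ?_) (card_nsmul_le_sum univ _ (Av n fun l =>
        K * (univ.image R ∪ rng m c (g * m v) l).card - C) fun e _ =>
          ih r R hR hm _ _ h1 fun x hx => ?_)
      · have h5 : ∀ T : Finset G, univ.image R ∪ insert (g * c * g⁻¹) T = univ.image R ∪ T :=
          fun T => by rw [union_insert, insert_eq_of_mem (mem_union_left _ (by simpa using h4))]
        simp [mul_comm, h5]
      · have h5 := ((hL.comm _ (hg c hc) _ (h1 x hx)).zpow_left (ex e)).eq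
        rw [mul_inv_rev, mul_assoc ((g * c * g⁻¹) ^ ex e), mul_assoc ((g * c * g⁻¹) ^ ex e),
          ← mul_assoc (g' * _ * x), h2 x hx, ← mul_assoc, h5, mul_inv_cancel_right]
    · rw [← EE_cons hL hm (hg c hc)]
      refine le_trans (le_of_eq ?_) (ih _ _ (Fin.cons_injective_iff.2 ⟨h4, hR⟩)
        (fun i => Fin.cases (hg c hc) hm i) _ _ h1 h2)
      have h5 : univ.image (Fin.cons (g * c * g⁻¹) R : Fin (r + 1) → G) =
          insert (g * c * g⁻¹) (univ.image R) := by
        ext y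
        simp [Fin.exists_fin_succ, eq_comm]
      simp only [h5, insert_union, union_insert]

open Classical in
theorem Av_avoid (hmL : ∀ v, ∀ x ∈ L, (m v)⁻¹ * x * m v ∈ L) {h : G → ℝ} (h0 : h c = 0)
    (h1 : ∀ x ∈ L, h x ≤ 1)
    (h2 : ∀ x ∈ L, x ≠ c → h x ≤ (∑ v, h ((m v)⁻¹ * x * m v)) / Fintype.card S) (y : G) (n : ℕ) :
    ∀ g, g⁻¹ * y * g ∈ L →
      h (g⁻¹ * y * g) ≤ Av n fun l => if y ∈ rng m c g l then 0 else 1 := by
  have hS : (0 : ℝ) < Fintype.card S := by exact_mod_cast Fintype.card_pos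
  induction n with
  | zero => intro g hg; simpa [Av, rng] using h1 _ hg
  | succ n ih =>
    intro g hg
    by_cases h3 : g⁻¹ * y * g = c
    · rw [h3, h0]
      have h4 := Av_lin (S := S) (n + 1) 0 0 0 (fun _ => 0) fun _ => 0
      simp only [mul_zero, zero_mul, add_zero] at h4
      rw [← h4]
      exact Av_mono _ fun l => by positivity
    · refine (h2 _ hg h3).trans ?_
      simp only [Av, rng]
      gcongr with v
      have h4 : y ≠ g * c * g⁻¹ := fun h => h3 (by rw [h]; group)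
      have h5 : (m v)⁻¹ * (g⁻¹ * y * g) * m v = (g * m v)⁻¹ * y * (g * m v) := by group
      simp only [mem_insert, h4, false_or]
      rw [h5]
      exact ih _ (h5 ▸ hmL v _ hg)

open Classical in
theorem Av_rng (hc : c ∈ L) (hmL : ∀ v, ∀ x ∈ L, (m v)⁻¹ * x * m v ∈ L) {h : G → ℝ}
    (h0 : h c = 0) (h1 : ∀ x ∈ L, h x ≤ 1)
    (h2 : ∀ x ∈ L, x ≠ c → h x ≤ (∑ v, h ((m v)⁻¹ * x * m v)) / Fintype.card S) (n : ℕ) :
    ∀ g, (∑ v, h ((m v)⁻¹ * c * m v)) / Fintype.card S * n ≤
      Av n fun l => ((rng m c g l).card : ℝ) := by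
  have hS : (0 : ℝ) < Fintype.card S := by exact_mod_cast Fintype.card_pos
  set p := (∑ v, h ((m v)⁻¹ * c * m v)) / Fintype.card S with hp
  induction n with
  | zero => intro g; simp [Av, rng]
  | succ n ih =>
    intro g
    simp only [Av, rng]
    have h3 : ∀ v, p * n + h ((m v)⁻¹ * c * m v) ≤
        Av n fun l => ((insert (g * c * g⁻¹) (rng m c (g * m v) l)).card : ℝ) := by
      intro v
      have h4 : (g * m v)⁻¹ * (g * c * g⁻¹) * (g * m v) = (m v)⁻¹ * c * m v := by group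
      have h5 := Av_avoid hmL h0 h1 h2 (g * c * g⁻¹) n (g * m v) (h4 ▸ hmL v c hc)
      have h6 := Av_lin n 1 1 0 (fun l => ((rng m c (g * m v) l).card : ℝ))
        fun l => if g * c * g⁻¹ ∈ rng m c (g * m v) l then 0 else 1
      have h7 := Av_mono n (F := fun l => 1 * ((rng m c (g * m v) l).card : ℝ) +
          1 * (if g * c * g⁻¹ ∈ rng m c (g * m v) l then 0 else 1) + 0)
        (F' := fun l => ((insert (g * c * g⁻¹) (rng m c (g * m v) l)).card : ℝ)) fun l => by
          split_ifs with h7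
          · simp [insert_eq_of_mem h7]
          · simp [card_insert_of_notMem h7]
      rw [h4] at h5
      linarith [ih (g * m v)]
    have h4 := sum_le_sum fun v (_ : v ∈ univ) => h3 v
    rw [sum_add_distrib, sum_const, card_univ, nsmul_eq_mul, (div_eq_iff hS.ne').1 hp.symm] at h4
    rw [le_div_iff₀ hS]
    push_cast
    linarith

theorem not_heat (hL : Lamps L) (hc : c ∈ L) (ι : S ≃ S) (hι : ∀ v, m (ι v) = (m v)⁻¹)
    (hmL : ∀ v, ∀ x ∈ L, (m v)⁻¹ * x * m v ∈ L) {h : G → ℝ} (h0 : h c = 0)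
    (h1 : ∀ x ∈ L, h x ≤ 1)
    (h2 : ∀ x ∈ L, x ≠ c → h x ≤ (∑ v, h ((m v)⁻¹ * x * m v)) / Fintype.card S)
    (hp : 0 < ∑ v, h ((m v)⁻¹ * c * m v)) : ¬ Heat G := by
  classical
  rintro ⟨d, hd, H⟩
  have hS : (0 : ℝ) < Fintype.card S := by exact_mod_cast Fintype.card_pos
  set p := (∑ v, h ((m v)⁻¹ * c * m v)) / Fintype.card S with hpd
  have hp0 : 0 < p := div_pos hp hS
  set φ := ((Pop (st m c)) ^ 2) d 1
  obtain ⟨C, hC⟩ := large_of_heat hL H (K := (|φ| + 1) / p) (by positivity)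
  obtain ⟨k, hk⟩ := exists_nat_gt C
  let sw : Fin 3 ≃ Fin 3 := Equiv.swap 1 2
  have hsw : ∀ e, ex (sw e) = -ex e := by decide
  have h3 := walk_le (st m c) ((Equiv.prodCongr sw (Equiv.prodCongr ι sw)).trans
    ⟨fun σ => (σ.2.2, σ.2.1, σ.1), fun σ => (σ.2.2, σ.2.1, σ.1), fun _ => rfl, fun _ => rfl⟩)
    (fun σ => by simp [st, hsw, hι, mul_assoc]) hd.cn hd.2.1 k
  have h4 := walk_lb (m := m) hL hc (fun v x hx => by simpa [hι] using hmL (ι v) x hx) hC (2 * k)
    0 Fin.elim0 (fun i => i.elim0) (fun i => i.elim0) 1 1 (by simp) (by simp)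
  have h5 := Av_rng hc hmL h0 h1 h2 (2 * k) 1
  have h6 := Av_lin (2 * k) ((|φ| + 1) / p) 0 (-C) (fun l => ((rng m c 1 l).card : ℝ))
    fun _ => 0
  simp only [zero_mul, add_zero, ← sub_eq_add_neg] at h6
  simp only [univ_eq_empty, image_empty, empty_union, h6, EE, Ph, List.ofFn_zero, List.prod_nil,
    mul_one, pow_zero, div_one, Fintype.sum_unique] at h4
  have h7 : (|φ| + 1) / p * (p * (2 * k : ℕ)) = (|φ| + 1) * (2 * k) := by
    push_cast; field_simp
  have h8 := mul_le_mul_of_nonneg_left h5 (show 0 ≤ (|φ| + 1) / p by positivity)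
  have hk0 : (0 : ℝ) ≤ k := Nat.cast_nonneg k
  nlinarith [le_abs_self φ, abs_nonneg φ]

end Pool.Agent.Lib.MP_94b6b1_an.ZL
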